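import Pool.Agent.Helper22.CS.Defs
import Pool.Agent.Helper22.FL.Big
import Pool.Agent.Helper22.FL.Closure

/-!
Auxiliary definitions for the characterisation theorem.
-/

namespace Pool.Agent.Helper22.CS

open Pool.Agent.Helper22.FL

variable {n : ℕ}

/-- all words whose Parikh vector is in `M` -/
def comLang (M : Set (Fin n → ℕ)) : Language (Fin n) := {w | parikh w ∈ M}

theorem mem_comLang {M : Set (Fin n → ℕ)} {w : List (Fin n)} : w ∈ comLang M ↔ parikh w ∈ M :=
  Iff.rfl

theorem mem_letters {p : Fin n → ℕ} {a : Fin n} : a ∈ letters p ↔ p a ≠ 0 := by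
  simp [letters]

theorem parikh_append (u v : List (Fin n)) : parikh (u ++ v) = parikh u + parikh v := by
  funext a
  simp [parikh]

/-- the real vector of a vector of natural numbers -/
def toR (p : Fin n → ℕ) : Fin n → ℝ := fun a => (p a : ℝ)

/-- `X` is in the real cone generated by `P` -/
def InCone (P : Finset (Fin n → ℕ)) (X : Fin n → ℝ) : Prop :=
  ∃ t : (Fin n → ℕ) → ℝ, (∀ p ∈ P, 0 ≤ t p) ∧ X = ∑ p ∈ P, t p • toR p

open Classical in
/-- the elements of `P` a positive multiple of which can be subtracted from `X` in the cone -/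
noncomputable def removable (P : Finset (Fin n → ℕ)) (X : Fin n → ℝ) : Finset (Fin n → ℕ) :=
  P.filter fun p => ∃ ε : ℝ, 0 < ε ∧ InCone P (X - ε • toR p)

/-- a chord between the positions `i ≤ j` of a word, of type `v` and of weight `l` -/
structure Chord (n : ℕ) where
  i : ℕ
  j : ℕ
  v : Fin n → ℕ
  l : ℝ

/-- the chord has positive weight, its type is in `P`, and the letters of its type are exactly the
letters at its two end points, which are distinct if `i < j` -/
def Chord.Ok (P : Finset (Fin n → ℕ)) (L : ℕ) (w : ℕ → Fin n) (c : Chord n) : Prop :=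
  c.i ≤ c.j ∧ c.j < L ∧ c.v ∈ P ∧ 0 < c.l ∧ letters c.v = {w c.i, w c.j} ∧
    (c.i < c.j → w c.i ≠ w c.j)

/-- the contribution of the chord at the position `k` -/
noncomputable def Chord.at (w : ℕ → Fin n) (c : Chord n) (k : ℕ) : ℝ :=
  if k = c.i ∨ k = c.j then c.l * (c.v (w k) : ℝ) else 0

/-- no two chords cross -/
def NonCross (cs : List (Chord n)) : Prop :=
  ∀ c ∈ cs, ∀ d ∈ cs, ¬ (c.i < d.i ∧ d.i < c.j ∧ c.j < d.j)

/-- the real vector of the amounts `m k` at the positions `k < L` -/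
noncomputable def total (L : ℕ) (w : ℕ → Fin n) (m : ℕ → ℝ) : Fin n → ℝ :=
  fun a => ∑ k ∈ Finset.range L, if w k = a then m k else 0

/-- the chords realise the amounts -/
def Realises (P : Finset (Fin n → ℕ)) (L : ℕ) (w : ℕ → Fin n) (m : ℕ → ℝ)
    (cs : List (Chord n)) : Prop :=
  (∀ c ∈ cs, c.Ok P L w) ∧ NonCross cs ∧ ∀ k < L, (cs.map fun c => c.at w k).sum = m k

/-- the interval `[s,t]` is good for the set of pairs `E`: a pair leaving the interval has its
inner point at an end of the interval or its outer point next to the interval -/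
def Good (E : Set (ℕ × ℕ)) (s t : ℕ) : Prop :=
  ∀ e ∈ E, (s ≤ e.1 → e.1 ≤ t → t < e.2 → e.1 = s ∨ e.1 = t ∨ e.2 = t + 1) ∧
    (e.1 < s → s ≤ e.2 → e.2 ≤ t → e.2 = s ∨ e.2 = t ∨ e.1 + 1 = s)

/-- the set of pairs of end points of the chords -/
def pairs (cs : List (Chord n)) : Set (ℕ × ℕ) := {e | ∃ c ∈ cs, e = (c.i, c.j)}

/-- the total weight of the chords of type `v` inside the interval `[s,t]` -/
noncomputable def ins (cs : List (Chord n)) (s t : ℕ) (v : Fin n → ℕ) : ℝ :=
  (cs.map fun c => if s ≤ c.i ∧ c.j ≤ t ∧ c.v = v then c.l else 0).sum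

/-- the monoid generated by `P`, in the integer vectors -/
def Kz (P : Finset (Fin n → ℕ)) : Set (Fin n → ℤ) :=
  {x | ∃ t : (Fin n → ℕ) → ℕ, x = fun a => ∑ p ∈ P, (t p : ℤ) * (p a : ℤ)}

/-- integer unit vectors -/
def ez (a : Fin n) : Fin n → ℤ := fun b => if a = b then 1 else 0

/-- the box of integer vectors -/
def Box (R : ℤ) (r : Fin n → ℤ) : Prop := ∀ a, |r a| ≤ R

open Symbol in
/-- the rules of the grammar -/
def RG (P : Finset (Fin n → ℕ)) (R : ℤ) : Set (ContextFreeRule (Fin n) (Fin n → ℤ)) :=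
  {ρ | Box R ρ.input ∧ ((ρ.output = [] ∧ ρ.input ∈ Kz P) ∨
    (∃ a, ρ.output = [terminal a] ∧ ez a + ρ.input ∈ Kz P) ∨
    ∃ s t, Box R s ∧ Box R t ∧ ρ.output = [nonterminal s, nonterminal t] ∧
      ρ.input - s - t ∈ Kz P)}

end Pool.Agent.Helper22.CS
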