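import Pool.Agent.Helper22.FL.Defs

/-!
Definitions for the characterisation of context-free commutative closures in the case of a
common finite set of periods.
-/

namespace Pool.Agent.Helper22.CS

/-- the Parikh vector (letter counts) of a word -/
def parikh {n : ℕ} (w : List (Fin n)) : Fin n → ℕ := fun a => w.count a

/-- `periodSet F P` is the union of the linear sets `L(c,P)`, `c ∈ F`: the set of all
`c + ∑_{p ∈ P} t_p p` with `c ∈ F` and natural numbers `t_p` -/
def periodSet {n : ℕ} (F P : Finset (Fin n → ℕ)) : Set (Fin n → ℕ) :=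
  {v | ∃ c ∈ F, ∃ t : (Fin n → ℕ) → ℕ, v = c + ∑ p ∈ P, t p • p}

/-- the letters occurring in a vector -/
def letters {n : ℕ} (p : Fin n → ℕ) : Finset (Fin n) := Finset.univ.filter fun a => p a ≠ 0

/-- `S` is a face of `P`: whenever a combination of the elements of `P` with natural coefficients
equals a combination of the elements of `S` with natural coefficients, it involves only
elements of `S` -/
def IsFace {n : ℕ} (P S : Finset (Fin n → ℕ)) : Prop :=
  S ⊆ P ∧ ∀ s t : (Fin n → ℕ) → ℕ, ∑ p ∈ P, s p • p = ∑ p ∈ S, t p • p →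
    ∀ p ∈ P, p ∉ S → s p = 0

/-- `S` splits: some element of `S` has exactly one letter, or the letters occurring in `S` can be
divided into two nonempty classes `A`, `B` such that for all `a ∈ A`, `b ∈ B` some element
of `S` has exactly the letters `a` and `b` -/
def Splits {n : ℕ} (S : Finset (Fin n → ℕ)) : Prop :=
  (∃ p ∈ S, ∃ a, letters p = {a}) ∨
    ∃ A B : Finset (Fin n), A.Nonempty ∧ B.Nonempty ∧ Disjoint A B ∧
      (∀ p ∈ S, letters p ⊆ A ∪ B) ∧ ∀ a ∈ A, ∀ b ∈ B, ∃ p ∈ S, letters p = {a, b}

/-- every face of `P` containing a nonzero vector splits -/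
def Cuttable {n : ℕ} (P : Finset (Fin n → ℕ)) : Prop :=
  ∀ S, IsFace P S → (∃ p ∈ S, p ≠ 0) → Splits S

end Pool.Agent.Helper22.CS
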