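import Pool.Agent.Helper22.CS.Base

/-! Module BOUND of MP_434a84_lc, theorem D. -/

namespace Pool.Agent.Helper22.CS

variable {n : ℕ} {P : Finset (Fin n → ℕ)} {L : ℕ} {w : ℕ → Fin n} {m : ℕ → ℝ}
  {cs : List (Chord n)}

theorem ins_nonneg (h : Realises P L w m cs) (s t : ℕ) (v : Fin n → ℕ) : 0 ≤ ins cs s t v := by
  refine List.sum_nonneg ?_
  intro x hx
  obtain ⟨c, hc, rfl⟩ := List.mem_map.1 hx
  have h1 := (h.1 c hc).2.2.2.1
  split_ifs
  · exact h1.le
  · exact le_rfl

theorem ins_add_le (h : Realises P L w m cs) {s k t : ℕ} (hsk : s ≤ k) (hkt : k < t)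
    (v : Fin n → ℕ) : ins cs s k v + ins cs (k + 1) t v ≤ ins cs s t v := by
  unfold ins
  rw [← List.sum_map_add]
  refine List.sum_le_sum ?_
  intro c hc
  have hO := h.1 c hc
  have h1 := hO.2.2.2.1
  have h2 := hO.1
  by_cases a : s ≤ c.i ∧ c.j ≤ k ∧ c.v = v
  · have b : ¬ (k + 1 ≤ c.i ∧ c.j ≤ t ∧ c.v = v) := fun b => by
      have := a.2.1
      have := b.1
      omega
    have d : s ≤ c.i ∧ c.j ≤ t ∧ c.v = v := ⟨a.1, by have := a.2.1; omega, a.2.2⟩
    rw [if_pos a, if_neg b, if_pos d]
    linarith
  · rw [if_neg a, zero_add]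
    by_cases b : k + 1 ≤ c.i ∧ c.j ≤ t ∧ c.v = v
    · have d : s ≤ c.i ∧ c.j ≤ t ∧ c.v = v := ⟨by have := b.1; omega, b.2.1, b.2.2⟩
      rw [if_pos b, if_pos d]
    · rw [if_neg b]
      split_ifs
      · exact h1.le
      · exact le_rfl

/-- the two end points -/
theorem at_split (c : Chord n) (w : ℕ → Fin n) (a : Fin n) (k : ℕ) :
    (if w k = a then c.at w k else 0) =
      (if k = c.i then (if w c.i = a then c.l * (c.v a : ℝ) else 0) else 0) +
      (if k = c.j then (if c.i ≠ c.j ∧ w c.j = a then c.l * (c.v a : ℝ) else 0) else 0) := by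
  unfold Chord.at
  by_cases h1 : k = c.i
  · subst h1
    by_cases h2 : c.i = c.j
    · simp only [h2, true_or, if_true, ne_eq, not_true_eq_false, false_and, if_false, add_zero]
      by_cases h3 : w c.j = a
      · simp [h3]
      · simp [h3]
    · simp only [true_or, if_true, h2, if_false, add_zero]
      by_cases h3 : w c.i = a
      · simp [h3]
      · simp [h3]
  · by_cases h2 : k = c.j
    · subst h2
      have h3 : c.i ≠ c.j := fun h => h1 h.symm
      simp only [h1, or_true, if_true, if_false, zero_add, ne_eq]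
      by_cases h4 : w c.j = a
      · simp [h4, h3]
      · simp [h4]
    · simp [h1, h2]

theorem sum_at (c : Chord n) (w : ℕ → Fin n) (a : Fin n) (K : Finset ℕ) :
    ∑ k ∈ K, (if w k = a then c.at w k else 0) =
      (if c.i ∈ K then (if w c.i = a then c.l * (c.v a : ℝ) else 0) else 0) +
      (if c.j ∈ K then (if c.i ≠ c.j ∧ w c.j = a then c.l * (c.v a : ℝ) else 0) else 0) := by
  rw [Finset.sum_congr rfl fun k _ => at_split c w a k, Finset.sum_add_distrib,
    Finset.sum_ite_eq', Finset.sum_ite_eq']

theorem both (c : Chord n) (h : c.Ok P L w) (a : Fin n) :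
    (if w c.i = a then c.l * (c.v a : ℝ) else 0) +
      (if c.i ≠ c.j ∧ w c.j = a then c.l * (c.v a : ℝ) else 0) = c.l * (c.v a : ℝ) := by
  obtain ⟨h1, -, -, -, h5, h6⟩ := h
  have h0 : w c.i ≠ a → w c.j ≠ a → (c.v a : ℝ) = 0 := by
    intro h7 h8
    by_contra h9
    have h10 : a ∈ letters c.v := by
      rw [mem_letters]
      exact fun h => h9 (by rw [h]; simp)
    rw [h5, Finset.mem_insert, Finset.mem_singleton] at h10
    rcases h10 with h10 | h10
    · exact h7 h10.symm
    · exact h8 h10.symm
  by_cases hi : w c.i = a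
  · by_cases hij : c.i = c.j
    · have hj : w c.j = a := hij ▸ hi
      simp [hij, hj]
    · have := h6 (lt_of_le_of_ne h1 hij)
      have h11 : w c.j ≠ a := fun h => this (hi.trans h.symm)
      simp [hi, h11]
  · by_cases hj : w c.j = a
    · have hij : c.i ≠ c.j := fun h => hi (h ▸ hj)
      simp [hi, hj, hij]
    · simp [hi, hj, h0 hi hj]

/-- the sum over the types of the inside weights -/
theorem sum_ins (h : ∀ c ∈ cs, c.Ok P L w) (s t : ℕ) (a : Fin n) :
    ∑ v ∈ P, ins cs s t v * (v a : ℝ) =
      (cs.map fun c => if s ≤ c.i ∧ c.j ≤ t then c.l * (c.v a : ℝ) else 0).sum := by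
  induction cs with
  | nil => simp [ins]
  | cons c cs ih =>
    have hc := h c List.mem_cons_self
    have ih' := ih fun d hd => h d (List.mem_cons_of_mem _ hd)
    rw [List.map_cons, List.sum_cons, ← ih']
    have e : ∀ v, ins (c :: cs) s t v * (v a : ℝ) =
        (if c.v = v then (if s ≤ c.i ∧ c.j ≤ t then c.l * (c.v a : ℝ) else 0) else 0) +
          ins cs s t v * (v a : ℝ) := by
      intro v
      unfold ins
      rw [List.map_cons, List.sum_cons, add_mul]
      congr 1
      by_cases hv : c.v = v
      · subst hv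
        by_cases h2 : s ≤ c.i ∧ c.j ≤ t
        · simp [h2]
        · have h3 : ¬ (s ≤ c.i ∧ c.j ≤ t ∧ c.v = c.v) := fun h => h2 ⟨h.1, h.2.1⟩
          rw [if_neg h3, if_neg h2]
          simp
      · have h3 : ¬ (s ≤ c.i ∧ c.j ≤ t ∧ c.v = v) := fun h => hv h.2.2
        rw [if_neg h3, if_neg hv]
        simp
    rw [Finset.sum_congr rfl fun v _ => e v, Finset.sum_add_distrib, Finset.sum_ite_eq,
      if_pos hc.2.2.1]

theorem list_sum_ite {α : Type} (l : List α) (f : α → ℝ) (p : Prop) [Decidable p] :
    (if p then (l.map f).sum else 0) = (l.map fun x => if p then f x else 0).sum := by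
  by_cases hp : p
  · simp [hp]
  · simp [hp]

theorem sum_comm' {α : Type} (l : List α) (K : Finset ℕ) (f : α → ℕ → ℝ) :
    ∑ k ∈ K, (l.map fun x => f x k).sum = (l.map fun x => ∑ k ∈ K, f x k).sum := by
  induction l with
  | nil => simp
  | cons x l ih => simp [Finset.sum_add_distrib, ih]

/-- the amounts in a set of positions -/
theorem sum_m (h : Realises P L w m cs) (a : Fin n) (K : Finset ℕ) (hK : ∀ k ∈ K, k < L) :
    (∑ k ∈ K, if w k = a then m k else 0) =
      (cs.map fun c => ∑ k ∈ K, if w k = a then c.at w k else 0).sum := by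
  rw [← sum_comm' cs K fun c k => if w k = a then c.at w k else 0]
  refine Finset.sum_congr rfl fun k hk => ?_
  rw [← h.2.2 k (hK k hk), list_sum_ite]

/-- all chords are inside the whole interval -/
theorem ins_whole (h : Realises P L w m cs) (a : Fin n) :
    ∑ v ∈ P, ins cs 0 (L - 1) v * (v a : ℝ) = total L w m a := by
  rw [sum_ins h.1]
  unfold total
  rw [sum_m h a (Finset.range L) fun k hk => Finset.mem_range.1 hk]
  congr 1
  refine List.map_congr_left fun c hc => ?_
  have hO := h.1 c hc
  have h1 := hO.1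
  have h2 := hO.2.1
  rw [sum_at, if_pos (Finset.mem_range.2 (by omega)), if_pos (Finset.mem_range.2 h2),
    both c hO a, if_pos ⟨by omega, by omega⟩]

theorem at_nonneg (c : Chord n) (h : c.Ok P L w) (k : ℕ) : 0 ≤ c.at w k := by
  unfold Chord.at
  have := h.2.2.2.1
  split_ifs
  · positivity
  · exact le_rfl

theorem one_le (c : Chord n) (h : c.Ok P L w) {k : ℕ} (hk : k = c.i ∨ k = c.j) :
    1 ≤ (c.v (w k) : ℝ) := by
  have h5 := h.2.2.2.2.1
  have : w k ∈ letters c.v := by
    rw [h5, Finset.mem_insert, Finset.mem_singleton]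
    rcases hk with rfl | rfl
    · exact Or.inl rfl
    · exact Or.inr rfl
  rw [mem_letters] at this
  exact_mod_cast Nat.one_le_iff_ne_zero.2 this

/-- the amounts in a good interval are given by the chords inside up to a bounded error -/
theorem leave_bound (h : Realises P L w m cs) (hm : ∀ k, m k ≤ 1) {B : ℕ}
    (hB : ∀ v ∈ P, ∀ a, v a ≤ B) {s t : ℕ} (hst : s ≤ t) (htL : t < L)
    (hg : Good (pairs cs) s t) (a : Fin n) :
    0 ≤ (∑ k ∈ Finset.Icc s t, if w k = a then m k else 0) -
        ∑ v ∈ P, ins cs s t v * (v a : ℝ) ∧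
    (∑ k ∈ Finset.Icc s t, if w k = a then m k else 0) -
        ∑ v ∈ P, ins cs s t v * (v a : ℝ) ≤ 2 + 2 * B := by
  have hK : ∀ k ∈ Finset.Icc s t, k < L := fun k hk => by
    have := (Finset.mem_Icc.1 hk).2
    omega
  rw [sum_m h a _ hK, sum_ins h.1]
  -- the bound for a single chord
  have key : ∀ c ∈ cs, (if s ≤ c.i ∧ c.j ≤ t then c.l * (c.v a : ℝ) else 0) ≤
        (∑ k ∈ Finset.Icc s t, if w k = a then c.at w k else 0) ∧
      (∑ k ∈ Finset.Icc s t, if w k = a then c.at w k else 0) ≤
        (if s ≤ c.i ∧ c.j ≤ t then c.l * (c.v a : ℝ) else 0) + c.at w s + c.at w t +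
          B * (if t + 1 < L then c.at w (t + 1) else 0) +
          B * (if 1 ≤ s then c.at w (s - 1) else 0) := by
    intro c hc
    have hO := h.1 c hc
    have h1 := hO.1
    have h2 := hO.2.1
    have hl := hO.2.2.2.1
    have hBa : (c.v a : ℝ) ≤ B := by exact_mod_cast hB c.v hO.2.2.1 a
    have n1 := at_nonneg c hO s
    have n2 := at_nonneg c hO t
    have n3 : 0 ≤ (B : ℝ) * (if t + 1 < L then c.at w (t + 1) else 0) := by
      have := at_nonneg c hO (t + 1)
      split_ifs <;> positivity
    have n4 : 0 ≤ (B : ℝ) * (if 1 ≤ s then c.at w (s - 1) else 0) := by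
      have := at_nonneg c hO (s - 1)
      split_ifs <;> positivity
    have n5 : 0 ≤ c.l * (c.v a : ℝ) := by positivity
    have hgood := hg (c.i, c.j) ⟨c, hc, rfl⟩
    simp only at hgood
    rw [sum_at]
    by_cases hi : c.i ∈ Finset.Icc s t
    · by_cases hj : c.j ∈ Finset.Icc s t
      · have h3 : s ≤ c.i ∧ c.j ≤ t := ⟨(Finset.mem_Icc.1 hi).1, (Finset.mem_Icc.1 hj).2⟩
        rw [if_pos hi, if_pos hj, both c hO a, if_pos h3]
        exact ⟨le_rfl, by linarith⟩
      · rw [Finset.mem_Icc] at hi hj
        have h4 : t < c.j := by omega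
        have h3 : ¬ (s ≤ c.i ∧ c.j ≤ t) := fun h => by omega
        rw [if_pos (Finset.mem_Icc.2 hi), if_neg (fun h => hj (Finset.mem_Icc.1 h)), if_neg h3,
          add_zero]
        have n6 : (0 : ℝ) ≤ (if w c.i = a then c.l * (c.v a : ℝ) else 0) := by
          split_ifs
          · exact n5
          · exact le_rfl
        refine ⟨n6, ?_⟩
        rcases hgood.1 hi.1 hi.2 h4 with h5 | h5 | h5
        · have e : (if w c.i = a then c.l * (c.v a : ℝ) else 0) ≤ c.at w s := by
            unfold Chord.at
            rw [if_pos (Or.inl h5.symm), ← h5]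
            split_ifs with h6
            · rw [h6]
            · positivity
          linarith
        · have e : (if w c.i = a then c.l * (c.v a : ℝ) else 0) ≤ c.at w t := by
            unfold Chord.at
            rw [if_pos (Or.inl h5.symm), ← h5]
            split_ifs with h6
            · rw [h6]
            · positivity
          linarith
        · have e : (if w c.i = a then c.l * (c.v a : ℝ) else 0) ≤
              B * (if t + 1 < L then c.at w (t + 1) else 0) := by
            rw [if_pos (show t + 1 < L by omega)]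
            unfold Chord.at
            rw [if_pos (Or.inr h5.symm)]
            have h7 := one_le c hO (k := t + 1) (Or.inr h5.symm)
            have h8 : c.l * (c.v a : ℝ) ≤ B * (c.l * (c.v (w (t + 1)) : ℝ)) := by
              calc c.l * (c.v a : ℝ) ≤ c.l * B := by gcongr
                _ = B * (c.l * 1) := by ring
                _ ≤ _ := by gcongr
            split_ifs with h6
            · exact h8
            · exact n5.trans h8
          linarith
    · by_cases hj : c.j ∈ Finset.Icc s t
      · rw [Finset.mem_Icc] at hi hj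
        have h4 : c.i < s := by omega
        have h3 : ¬ (s ≤ c.i ∧ c.j ≤ t) := fun h => by omega
        rw [if_neg (fun h => hi (Finset.mem_Icc.1 h)), if_pos (Finset.mem_Icc.2 hj), if_neg h3,
          zero_add]
        have n6 : (0 : ℝ) ≤ (if c.i ≠ c.j ∧ w c.j = a then c.l * (c.v a : ℝ) else 0) := by
          split_ifs
          · exact n5
          · exact le_rfl
        refine ⟨n6, ?_⟩
        rcases hgood.2 h4 hj.1 hj.2 with h5 | h5 | h5
        · have e : (if c.i ≠ c.j ∧ w c.j = a then c.l * (c.v a : ℝ) else 0) ≤ c.at w s := by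
            unfold Chord.at
            rw [if_pos (Or.inr h5.symm), ← h5]
            split_ifs with h6
            · rw [h6.2]
            · positivity
          linarith
        · have e : (if c.i ≠ c.j ∧ w c.j = a then c.l * (c.v a : ℝ) else 0) ≤ c.at w t := by
            unfold Chord.at
            rw [if_pos (Or.inr h5.symm), ← h5]
            split_ifs with h6
            · rw [h6.2]
            · positivity
          linarith
        · have e : (if c.i ≠ c.j ∧ w c.j = a then c.l * (c.v a : ℝ) else 0) ≤
              B * (if 1 ≤ s then c.at w (s - 1) else 0) := by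
            rw [if_pos (show 1 ≤ s by omega)]
            have h9 : s - 1 = c.i := by omega
            unfold Chord.at
            rw [if_pos (Or.inl h9)]
            have h7 := one_le c hO (k := s - 1) (Or.inl h9)
            have h8 : c.l * (c.v a : ℝ) ≤ B * (c.l * (c.v (w (s - 1)) : ℝ)) := by
              calc c.l * (c.v a : ℝ) ≤ c.l * B := by gcongr
                _ = B * (c.l * 1) := by ring
                _ ≤ _ := by gcongr
            split_ifs with h6
            · exact h8
            · exact n5.trans h8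
          linarith
      · rw [if_neg hi, if_neg hj]
        rw [Finset.mem_Icc] at hi hj
        have h3 : ¬ (s ≤ c.i ∧ c.j ≤ t) := fun h => by omega
        rw [if_neg h3]
        exact ⟨by simp, by linarith⟩
  have s1 := List.sum_le_sum fun c hc => (key c hc).1
  have s2 := List.sum_le_sum fun c hc => (key c hc).2
  have f1 : (cs.map fun c => c.at w s).sum ≤ 1 := by
    rw [h.2.2 s (by omega)]
    exact hm s
  have f2 : (cs.map fun c => c.at w t).sum ≤ 1 := by
    rw [h.2.2 t (by omega)]
    exact hm t
  have hB0 : (0 : ℝ) ≤ B := Nat.cast_nonneg B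
  have f3 : (cs.map fun c : Chord n =>
      (B : ℝ) * (if t + 1 < L then c.at w (t + 1) else 0)).sum ≤ (B : ℝ) := by
    rw [List.sum_map_mul_left]
    have : (cs.map fun c : Chord n =>
        (if t + 1 < L then c.at w (t + 1) else (0 : ℝ))).sum ≤ 1 := by
      by_cases h5 : t + 1 < L
      · simp only [if_pos h5]
        rw [h.2.2 _ h5]
        exact hm _
      · simp only [if_neg h5]
        simp
    nlinarith
  have f4 : (cs.map fun c : Chord n =>
      (B : ℝ) * (if 1 ≤ s then c.at w (s - 1) else 0)).sum ≤ (B : ℝ) := by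
    rw [List.sum_map_mul_left]
    have : (cs.map fun c : Chord n =>
        (if 1 ≤ s then c.at w (s - 1) else (0 : ℝ))).sum ≤ 1 := by
      by_cases h5 : 1 ≤ s
      · simp only [if_pos h5]
        rw [h.2.2 _ (by omega)]
        exact hm _
      · simp only [if_neg h5]
        simp
    nlinarith
  simp only [List.sum_map_add] at s2
  constructor
  · linarith
  · linarith

end Pool.Agent.Helper22.CS
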