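import Pool.Agent.Helper22.CS.Base

/-! Module DICKSON of MP_434a84_lc, theorem D. -/

namespace Pool.Agent.Helper22.CS

variable {n : ℕ}

theorem trunc_up (P : Finset (Fin n → ℕ)) (y : Fin n → ℕ) (c c' : (Fin n → ℕ) → ℕ)
    (h : ∀ v ∈ P, c v ≤ c' v)
    (hc : ∃ t : (Fin n → ℕ) → ℕ, y + ∑ v ∈ P, c v • v = ∑ p ∈ P, t p • p) :
    ∃ t : (Fin n → ℕ) → ℕ, y + ∑ v ∈ P, c' v • v = ∑ p ∈ P, t p • p := by
  obtain ⟨t, ht⟩ := hc
  refine ⟨fun v => t v + (c' v - c v), ?_⟩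
  have h1 : ∑ v ∈ P, c' v • v = ∑ v ∈ P, c v • v + ∑ v ∈ P, (c' v - c v) • v := by
    rw [← Finset.sum_add_distrib]
    refine Finset.sum_congr rfl fun v hv => ?_
    rw [← add_smul, Nat.add_sub_cancel' (h v hv)]
  rw [h1, ← add_assoc, ht, ← Finset.sum_add_distrib]
  exact Finset.sum_congr rfl fun v _ => (add_smul _ _ _).symm

theorem trunc_one (P : Finset (Fin n → ℕ)) (y : Fin n → ℕ) : ∃ U : ℕ, ∀ V, U ≤ V →
    ∀ c : (Fin n → ℕ) → ℕ,
    (∃ t : (Fin n → ℕ) → ℕ, y + ∑ v ∈ P, c v • v = ∑ p ∈ P, t p • p) →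
    ∃ t : (Fin n → ℕ) → ℕ, y + ∑ v ∈ P, (min (c v) V) • v = ∑ p ∈ P, t p • p := by
  classical
  let ext : ({v // v ∈ P} → ℕ) → (Fin n → ℕ) → ℕ := fun c v => if h : v ∈ P then c ⟨v, h⟩ else 0
  let A : Set ({v // v ∈ P} → ℕ) :=
    {c | ∃ t : (Fin n → ℕ) → ℕ, y + ∑ v ∈ P, ext c v • v = ∑ p ∈ P, t p • p}
  have hM : {c | Minimal (· ∈ A) c}.Finite :=
    WellQuasiOrderedLE.finite_of_isAntichain (setOfPred_minimal_antichain _)
  refine ⟨∑ c ∈ hM.toFinset, ∑ v, c v, ?_⟩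
  intro V hV c hc
  have hcA : (fun v : {v // v ∈ P} => c v.1) ∈ A := by
    refine trunc_up P y c _ (fun v hv => ?_) hc
    show c v ≤ if h : v ∈ P then c v else 0
    rw [dif_pos hv]
  obtain ⟨c0, h0, hmin⟩ := exists_minimal_le_of_wellFoundedLT (· ∈ A) _ hcA
  refine trunc_up P y (ext c0) _ (fun v hv => ?_) hmin.1
  show (if h : v ∈ P then c0 ⟨v, h⟩ else 0) ≤ _
  rw [dif_pos hv]
  refine le_min (h0 ⟨v, hv⟩) (le_trans ?_ hV)
  have h6 : c0 ⟨v, hv⟩ ≤ ∑ v, c0 v :=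
    Finset.single_le_sum (f := fun v => c0 v) (fun _ _ => Nat.zero_le _) (Finset.mem_univ _)
  refine h6.trans ?_
  exact Finset.single_le_sum (f := fun c : {v // v ∈ P} → ℕ => ∑ v, c v)
    (fun _ _ => Nat.zero_le _) (hM.mem_toFinset.2 hmin)

/-- Large coefficients can be truncated without leaving the monoid generated by `P`. -/
theorem exists_trunc (P Y : Finset (Fin n → ℕ)) : ∃ U : ℕ, ∀ y ∈ Y, ∀ c : (Fin n → ℕ) → ℕ,
    (∃ t : (Fin n → ℕ) → ℕ, y + ∑ v ∈ P, c v • v = ∑ p ∈ P, t p • p) →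
    ∃ t : (Fin n → ℕ) → ℕ, y + ∑ v ∈ P, (min (c v) U) • v = ∑ p ∈ P, t p • p := by
  choose U hU using trunc_one P
  refine ⟨∑ y ∈ Y, U y, fun y hy => hU y _ ?_⟩
  exact Finset.single_le_sum (f := U) (fun _ _ => Nat.zero_le _) hy

/-- Dickson: in an infinite sequence of elements of finitely many translates of the monoid
generated by `P` there are two whose difference is in the monoid. -/
theorem exists_diff (F P : Finset (Fin n → ℕ)) (x : ℕ → Fin n → ℕ)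
    (hx : ∀ i, x i ∈ periodSet F P) : ∃ i j, i < j ∧ ∃ t : (Fin n → ℕ) → ℕ,
      x j = x i + ∑ p ∈ P, t p • p := by
  classical
  choose c hc t ht using hx
  have h1 : WellQuasiOrdered (fun a b : {x // x ∈ F} => a = b) := Finite.wellQuasiOrdered _
  have h2 := h1.prod (wellQuasiOrdered_le (α := ({x // x ∈ P} → ℕ)))
  obtain ⟨i, j, hij, h3, h4⟩ := h2 fun i => (⟨c i, hc i⟩, fun p => t i p.1)
  refine ⟨i, j, hij, fun p => t j p - t i p, ?_⟩
  have h5 : c i = c j := congrArg Subtype.val h3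
  rw [ht i, ht j, h5, add_assoc, ← Finset.sum_add_distrib]
  congr 1
  refine Finset.sum_congr rfl fun p hp => ?_
  rw [← add_smul, Nat.add_sub_cancel' (h4 ⟨p, hp⟩)]

end Pool.Agent.Helper22.CS
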