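import Pool.Agent.Helper22.CS.Base

/-! Module GRAM of MP_434a84_lc, theorem D. -/

namespace Pool.Agent.Helper22.CS

open Pool.Agent.Helper22.FL Symbol

variable {n : ℕ} {P : Finset (Fin n → ℕ)} {R : ℤ}

theorem zero_mem_Kz (P : Finset (Fin n → ℕ)) : (0 : Fin n → ℤ) ∈ Kz P := by
  refine ⟨fun _ => 0, ?_⟩
  funext a
  simp

theorem add_mem_Kz {x y : Fin n → ℤ} (hx : x ∈ Kz P) (hy : y ∈ Kz P) : x + y ∈ Kz P := by
  obtain ⟨t, rfl⟩ := hx
  obtain ⟨t', rfl⟩ := hy
  refine ⟨fun p => t p + t' p, ?_⟩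
  funext a
  simp only [Pi.add_apply, Nat.cast_add, add_mul, Finset.sum_add_distrib]

theorem box_finite (R : ℤ) : {r : Fin n → ℤ | Box R r}.Finite := by
  have h : {r : Fin n → ℤ | Box R r} ⊆ Set.pi Set.univ fun _ => Set.Icc (-R) R := by
    intro r hr a _
    exact abs_le.1 (hr a)
  exact (Set.Finite.pi fun _ => Set.finite_Icc _ _).subset h

theorem RG_finite (P : Finset (Fin n → ℕ)) (R : ℤ) : (RG P R).Finite := by
  have hb := box_finite (n := n) R
  let O : Set (List (Symbol (Fin n) (Fin n → ℤ))) :=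
    {[]} ∪ Set.range (fun a : Fin n => [Symbol.terminal a]) ∪
      Set.image2 (fun s t => [nonterminal s, nonterminal t])
        {r : Fin n → ℤ | Box R r} {r : Fin n → ℤ | Box R r}
  have hO : O.Finite :=
    ((Set.finite_singleton _).union (Set.finite_range _)).union (hb.image2 _ hb)
  have h2 : ((fun q : (Fin n → ℤ) × List (Symbol (Fin n) (Fin n → ℤ)) =>
      (⟨q.1, q.2⟩ : ContextFreeRule (Fin n) (Fin n → ℤ))) ''
        ({r : Fin n → ℤ | Box R r} ×ˢ O)).Finite := (hb.prod hO).image _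
  refine h2.subset ?_
  rintro ⟨i, o⟩ ⟨h1, h3⟩
  refine ⟨(i, o), ⟨h1, ?_⟩, rfl⟩
  rcases h3 with ⟨h3, -⟩ | ⟨a, h3, -⟩ | ⟨s, t, hs, ht, h3, -⟩
  · exact Or.inl (Or.inl h3)
  · exact Or.inl (Or.inr ⟨a, h3.symm⟩)
  · exact Or.inr ⟨s, hs, t, ht, h3.symm⟩

theorem RG_sound {r : Fin n → ℤ} {w : List (Fin n)} (h : w ∈ lang (RG P R) r) :
    (fun a => (parikh w a : ℤ)) + r ∈ Kz P := by
  refine lang_sound (fun r => {w | (fun a => (parikh w a : ℤ)) + r ∈ Kz P}) ?_ r h
  rintro ⟨i, o⟩ ⟨-, h3⟩ w hw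
  simp only at h3 hw
  change (fun a => (parikh w a : ℤ)) + i ∈ Kz P
  rcases h3 with ⟨h3, h4⟩ | ⟨a, h3, h4⟩ | ⟨s, t, -, -, h3, h4⟩
  · subst h3
    have hw' : w = [] := hw
    subst hw'
    have e : (fun a => (parikh ([] : List (Fin n)) a : ℤ)) + i = i := by
      funext b
      simp [parikh]
    rw [e]
    exact h4
  · subst h3
    obtain ⟨w', rfl, hw'⟩ := hw
    have hw'' : w' = [] := hw'
    subst hw''
    have e : (fun b => (parikh [a] b : ℤ)) + i = ez a + i := by
      funext b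
      simp only [parikh, Pi.add_apply, ez, List.count_singleton]
      by_cases hab : a = b
      · simp [hab]
      · simp [hab]
    rw [e]
    exact h4
  · subst h3
    obtain ⟨u, v', rfl, hu, v, z, rfl, hv, hz⟩ := hw
    have hz' : z = [] := hz
    subst hz'
    have hu' : (fun a => (parikh u a : ℤ)) + s ∈ Kz P := hu
    have hv' : (fun a => (parikh v a : ℤ)) + t ∈ Kz P := hv
    have e : (fun b => (parikh (u ++ (v ++ [])) b : ℤ)) + i =
        ((fun a => (parikh u a : ℤ)) + s) + ((fun a => (parikh v a : ℤ)) + t) + (i - s - t) := by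
      funext b
      simp only [parikh, Pi.add_apply, Pi.sub_apply, List.append_nil, List.count_append,
        Nat.cast_add]
      ring
    rw [e]
    exact add_mem_Kz (add_mem_Kz hu' hv') h4

theorem RG_complete (w : ℕ → Fin n) (r : ℕ → ℕ → Fin n → ℤ) (G : ℕ → ℕ → Prop)
    (hbox : ∀ s t, s ≤ t → G s t → Box R (r s t))
    (hsplit : ∀ s t, s < t → G s t → ∃ k, s ≤ k ∧ k < t ∧ G s k ∧ G (k + 1) t ∧
      r s t - r s k - r (k + 1) t ∈ Kz P)
    (hbase : ∀ s, G s s → ez (w s) + r s s ∈ Kz P) (s t : ℕ) (hst : s ≤ t) (hG : G s t) :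
    (List.range' s (t + 1 - s)).map w ∈ lang (RG P R) (r s t) := by
  induction hd : t - s using Nat.strong_induction_on generalizing s t with
  | _ d ih =>
    rw [mem_lang, der_nt_iff]
    rcases Nat.eq_or_lt_of_le hst with h | h
    · subst h
      refine ⟨⟨r s s, [terminal (w s)]⟩, ⟨hbox s s le_rfl hG,
        Or.inr (Or.inl ⟨w s, rfl, hbase s hG⟩)⟩, rfl, ?_⟩
      have e : (List.range' s (s + 1 - s)).map w = [w s] := by
        have : s + 1 - s = 1 := by omega
        rw [this]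
        rfl
      rw [e]
      exact Der.term (w s) Der.nil
    · obtain ⟨k, hsk, hkt, h1, h2, h3⟩ := hsplit s t h hG
      refine ⟨⟨r s t, [nonterminal (r s k), nonterminal (r (k + 1) t)]⟩, ⟨hbox s t hst hG,
        Or.inr (Or.inr ⟨r s k, r (k + 1) t, hbox s k hsk h1, hbox (k + 1) t hkt h2, rfl, h3⟩)⟩,
        rfl, ?_⟩
      have d1 := ih (k - s) (by omega) s k hsk h1 rfl
      have d2 := ih (t - (k + 1)) (by omega) (k + 1) t hkt h2 rfl
      have e : (List.range' s (t + 1 - s)).map w = (List.range' s (k + 1 - s)).map w ++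
          (List.range' (k + 1) (t + 1 - (k + 1))).map w := by
        rw [← List.map_append]
        congr 1
        have e1 : s + (k + 1 - s) = k + 1 := by omega
        have e2 : (k + 1 - s) + (t + 1 - (k + 1)) = t + 1 - s := by omega
        have := List.range'_append_1 (s := s) (m := k + 1 - s) (n := t + 1 - (k + 1))
        rw [e1, e2] at this
        exact this.symm
      rw [e]
      rw [mem_lang] at d1 d2
      exact d1.append d2

end Pool.Agent.Helper22.CS
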