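import Pool.Agent.Helper22.CS.Base

/-! Module SPLIT of MP_434a84_lc, theorem D. -/

namespace Pool.Agent.Helper22.CS

theorem good_single (E : Set (ℕ × ℕ)) (s : ℕ) : Good E s s := by
  intro e _
  constructor
  · intro h1 h2 _
    left
    omega
  · intro _ h1 h2
    left
    omega

theorem good_whole {E : Set (ℕ × ℕ)} {L : ℕ} (hE : ∀ e ∈ E, e.2 < L) : Good E 0 (L - 1) := by
  intro e he
  have := hE e he
  constructor
  · intro _ _ h
    omega
  · intro h
    omega

/-- A good interval with at least two points is a union of two consecutive good intervals. -/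
theorem good_split {E : Set (ℕ × ℕ)}
    (hnc : ∀ e ∈ E, ∀ f ∈ E, ¬ (e.1 < f.1 ∧ f.1 < e.2 ∧ e.2 < f.2))
    {s t : ℕ} (hst : s < t) (hg : Good E s t) :
    ∃ k, s ≤ k ∧ k < t ∧ Good E s k ∧ Good E (k + 1) t := by
  classical
  by_cases hex : ∃ x, s < x ∧ x ≤ t ∧ ∃ e ∈ E, e.1 + 1 = s ∧ e.2 = x
  · obtain ⟨i, ⟨hi1, hi2, e, heE, he1, he2⟩, hmax⟩ :
        ∃ i, (s < i ∧ i ≤ t ∧ ∃ e ∈ E, e.1 + 1 = s ∧ e.2 = i) ∧
          ∀ x, (s < x ∧ x ≤ t ∧ ∃ e ∈ E, e.1 + 1 = s ∧ e.2 = x) → x ≤ i := by
      set A := (Finset.range (t + 1)).filter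
        (fun x => s < x ∧ x ≤ t ∧ ∃ e ∈ E, e.1 + 1 = s ∧ e.2 = x) with hA
      have hne : A.Nonempty := by
        obtain ⟨x, hx⟩ := hex
        exact ⟨x, by
          rw [hA, Finset.mem_filter, Finset.mem_range]
          exact ⟨by omega, hx⟩⟩
      refine ⟨A.max' hne, ?_, ?_⟩
      · exact (Finset.mem_filter.1 (A.max'_mem hne)).2
      · intro x hx
        apply A.le_max'
        rw [hA, Finset.mem_filter, Finset.mem_range]
        exact ⟨by omega, hx⟩
    refine ⟨i - 1, by omega, by omega, ?_, ?_⟩
    · intro f hf
      have h1 := hg f hf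
      have h2 := hnc e heE f hf
      constructor
      · intro a1 a2 a3
        omega
      · intro a1 a2 a3
        have := h1.2 (by omega) (by omega) (by omega)
        omega
    · intro f hf
      have h1 := hg f hf
      have h2 := hnc e heE f hf
      have h3 := hnc f hf e heE
      have h4 := hmax f.2
      constructor
      · intro a1 a2 a3
        have := h1.1 (by omega) (by omega) (by omega)
        omega
      · intro a1 a2 a3
        by_cases hfs : f.1 < s
        · have h5 := h1.2 (by omega) (by omega) (by omega)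
          rcases h5 with h5 | h5 | h5
          · omega
          · omega
          · have := h4 ⟨by omega, by omega, f, hf, h5, rfl⟩
            omega
        · omega
  · refine ⟨s, le_rfl, hst, good_single E s, ?_⟩
    intro f hf
    have h1 := hg f hf
    constructor
    · intro a1 a2 a3
      have := h1.1 (by omega) (by omega) (by omega)
      omega
    · intro a1 a2 a3
      by_cases hfs : f.1 < s
      · have h5 := h1.2 (by omega) (by omega) (by omega)
        rcases h5 with h5 | h5 | h5
        · omega
        · omega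
        · exact absurd ⟨f.2, by omega, by omega, f, hf, h5, rfl⟩ hex
      · omega

end Pool.Agent.Helper22.CS
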