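import Pool.Agent.Helper22.CS.Chords
import Pool.Agent.Helper22.CS.Split
import Pool.Agent.Helper22.CS.Bound
import Pool.Agent.Helper22.CS.Dickson
import Pool.Agent.Helper22.CS.Gram

/-! Module SUFF of MP_434a84_lc, theorem D: the criterion is sufficient. -/

namespace Pool.Agent.Helper22.CS

open Pool.Agent.Helper22.FL Symbol

variable {n : ℕ}

/-! ### free positions -/

/-- the number of occurrences of `a` before the position `L` -/
def sC (w : ℕ → Fin n) (L : ℕ) (a : Fin n) : ℕ := ∑ k ∈ Finset.range L, if w k = a then 1 else 0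

/-- the amounts: the first `f a` occurrences of every letter `a` are free -/
noncomputable def sM (w : ℕ → Fin n) (f : Fin n → ℕ) (k : ℕ) : ℝ :=
  if sC w k (w k) < f (w k) then 0 else 1

theorem sM_nonneg (w : ℕ → Fin n) (f : Fin n → ℕ) (k : ℕ) : 0 ≤ sM w f k := by
  unfold sM; split_ifs <;> simp

theorem sM_le_one (w : ℕ → Fin n) (f : Fin n → ℕ) (k : ℕ) : sM w f k ≤ 1 := by
  unfold sM; split_ifs <;> simp

theorem sC_succ (w : ℕ → Fin n) (L : ℕ) (a : Fin n) :
    sC w (L + 1) a = sC w L a + if w L = a then 1 else 0 := by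
  unfold sC; rw [Finset.sum_range_succ]

theorem total_sM (w : ℕ → Fin n) (f : Fin n → ℕ) (a : Fin n) (L : ℕ) :
    total L w (sM w f) a = (sC w L a : ℝ) - ((min (sC w L a) (f a) : ℕ) : ℝ) := by
  induction L with
  | zero => simp [total, sC]
  | succ L ih =>
    have h1 : total (L + 1) w (sM w f) a = total L w (sM w f) a +
        if w L = a then sM w f L else 0 := by
      unfold total; rw [Finset.sum_range_succ]
    rw [h1, ih, sC_succ]
    by_cases h : w L = a
    · rw [if_pos h, if_pos h]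
      unfold sM
      rw [h]
      by_cases h2 : sC w L a < f a
      · rw [if_pos h2, min_eq_left h2.le, min_eq_left (by omega : sC w L a + 1 ≤ f a)]
        push_cast; ring
      · rw [if_neg h2, min_eq_right (by omega), min_eq_right (by omega)]
        push_cast; ring
    · rw [if_neg h, if_neg h]
      simp

theorem free_bound (w : ℕ → Fin n) (f : Fin n → ℕ) (a : Fin n) (s t : ℕ) :
    0 ≤ (∑ k ∈ Finset.Icc s t, if w k = a then (1 : ℝ) else 0) -
        (∑ k ∈ Finset.Icc s t, if w k = a then sM w f k else 0) ∧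
    (∑ k ∈ Finset.Icc s t, if w k = a then (1 : ℝ) else 0) -
        (∑ k ∈ Finset.Icc s t, if w k = a then sM w f k else 0) ≤ f a := by
  have h0 : ∀ k, 0 ≤ (if w k = a then (1 : ℝ) else 0) - (if w k = a then sM w f k else 0) := by
    intro k
    split_ifs
    · linarith [sM_le_one w f k]
    · simp
  rw [← Finset.sum_sub_distrib]
  refine ⟨Finset.sum_nonneg fun k _ => h0 k, ?_⟩
  have h1 : ∑ k ∈ Finset.Icc s t, ((if w k = a then (1 : ℝ) else 0) -
      (if w k = a then sM w f k else 0)) ≤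
      ∑ k ∈ Finset.range (t + 1), ((if w k = a then (1 : ℝ) else 0) -
      (if w k = a then sM w f k else 0)) := by
    apply Finset.sum_le_sum_of_subset_of_nonneg
    · intro k hk
      rw [Finset.mem_Icc] at hk
      rw [Finset.mem_range]; omega
    · intro k _ _; exact h0 k
  refine h1.trans ?_
  rw [Finset.sum_sub_distrib]
  have h2 : ∑ k ∈ Finset.range (t + 1), (if w k = a then sM w f k else 0) =
      total (t + 1) w (sM w f) a := rfl
  have h3 : ∑ k ∈ Finset.range (t + 1), (if w k = a then (1 : ℝ) else 0) =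
      (sC w (t + 1) a : ℝ) := by
    unfold sC; push_cast; rfl
  rw [h2, h3, total_sM]
  have h4 : ((min (sC w (t + 1) a) (f a) : ℕ) : ℝ) ≤ f a := by
    exact_mod_cast min_le_right _ _
  linarith

/-! ### truncated integer parts -/

/-- `(⌊x⌋ - U)^+` -/
noncomputable def sg (U : ℕ) (x : ℝ) : ℤ := max (⌊x⌋ - U) 0

theorem sg_nonneg (U : ℕ) (x : ℝ) : 0 ≤ sg U x := le_max_right _ _

theorem sg_mono (U : ℕ) {x y : ℝ} (h : x ≤ y) : sg U x ≤ sg U y := by
  unfold sg
  have := Int.floor_mono h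
  omega

theorem sg_add (U : ℕ) {x y : ℝ} (hx : 0 ≤ x) (hy : 0 ≤ y) :
    sg U x + sg U y ≤ sg U (x + y) := by
  unfold sg
  have h1 := Int.le_floor_add x y
  have h2 := Int.floor_nonneg.2 hx
  have h3 := Int.floor_nonneg.2 hy
  omega

theorem sg_le (U : ℕ) {x : ℝ} (hx : 0 ≤ x) : (sg U x : ℝ) ≤ x := by
  have h2 := Int.floor_nonneg.2 hx
  have h3 : sg U x ≤ ⌊x⌋ := by unfold sg; omega
  calc (sg U x : ℝ) ≤ (⌊x⌋ : ℝ) := by exact_mod_cast h3
    _ ≤ x := Int.floor_le x

theorem le_sg (U : ℕ) (x : ℝ) : x - (U + 1) ≤ (sg U x : ℝ) := by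
  have h3 : ⌊x⌋ - U ≤ sg U x := by unfold sg; omega
  have h4 : ((⌊x⌋ - U : ℤ) : ℝ) ≤ (sg U x : ℝ) := by exact_mod_cast h3
  have h5 := Int.lt_floor_add_one x
  push_cast at h4
  linarith

theorem floor_sub_sg (U : ℕ) {x : ℝ} (hx : 0 ≤ x) :
    ⌊x⌋ - sg U x = ((min ⌊x⌋.toNat U : ℕ) : ℤ) := by
  have h2 := Int.floor_nonneg.2 hx
  unfold sg
  push_cast
  rw [Int.toNat_of_nonneg h2]
  omega

/-! ### the states -/

/-- the state of an interval -/
noncomputable def sR (P : Finset (Fin n → ℕ)) (U : ℕ) (w : ℕ → Fin n) (cs : List (Chord n))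
    (s t : ℕ) : Fin n → ℤ :=
  fun a => ∑ v ∈ P, sg U (ins cs s t v) * (v a : ℤ) - ∑ k ∈ Finset.Icc s t, if w k = a then 1 else 0

theorem mem_Kz_of {P : Finset (Fin n → ℕ)} {x : Fin n → ℤ} {c : (Fin n → ℕ) → ℤ}
    (hc : ∀ p ∈ P, 0 ≤ c p) (hx : ∀ a, x a = ∑ p ∈ P, c p * (p a : ℤ)) : x ∈ Kz P := by
  refine ⟨fun p => (c p).toNat, ?_⟩
  funext a
  rw [hx]
  refine Finset.sum_congr rfl fun p hp => ?_
  rw [Int.toNat_of_nonneg (hc p hp)]

theorem map_getD (w : List (Fin n)) (d : Fin n) :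
    (List.range' 0 w.length).map (fun k => w.getD k d) = w := by
  apply List.ext_getElem
  · simp
  · intro i h1 h2
    rw [List.getElem_map, List.getElem_range']
    simp [List.getD_eq_getElem?_getD, List.getElem?_eq_getElem h2]

theorem count_map_range (w : ℕ → Fin n) (a : Fin n) (L : ℕ) :
    ((List.range' 0 L).map w).count a = sC w L a := by
  induction L with
  | zero => simp [sC]
  | succ L ih =>
    rw [← List.range_eq_range'] at ih ⊢
    rw [List.range_succ, List.map_append, List.count_append, ih, sC_succ]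
    simp only [List.map_cons, List.map_nil, List.count_singleton]
    congr 1
    by_cases h : w L = a <;> simp [h]

theorem complete_aux (f : Fin n → ℕ) (P : Finset (Fin n → ℕ)) (hP : Cuttable P) {B U : ℕ}
    (hB : ∀ v ∈ P, ∀ a, v a ≤ B)
    (hU : ∀ y ∈ Fintype.piFinset (fun _ : Fin n => Finset.range (P.card * B + 1)),
      ∀ c : (Fin n → ℕ) → ℕ, (∃ t : (Fin n → ℕ) → ℕ, y + ∑ v ∈ P, c v • v = ∑ p ∈ P, t p • p) →
      ∃ t : (Fin n → ℕ) → ℕ, y + ∑ v ∈ P, (min (c v) U) • v = ∑ p ∈ P, t p • p)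
    {R : ℤ} (hR : R = P.card * ((U + 1) * B) + 2 + 2 * B + ∑ a, (f a : ℤ))
    (w : List (Fin n)) (hw : w ≠ []) (t : (Fin n → ℕ) → ℕ)
    (ht : parikh w = f + ∑ p ∈ P, t p • p) :
    w ∈ lang (RG P R) (fun a => -(f a : ℤ)) := by
  classical
  have hsum0 : 0 ≤ ∑ a, (f a : ℤ) := Finset.sum_nonneg fun a _ => Int.natCast_nonneg _
  have hcard0 : (0 : ℤ) ≤ P.card * ((U + 1) * B) := by positivity
  have hR0 : 0 ≤ R := by rw [hR]; positivity
  obtain ⟨d, w0, rfl⟩ := List.exists_cons_of_ne_nil hw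
  set wl : List (Fin n) := d :: w0 with hwl
  set L := wl.length with hL
  have hL1 : 1 ≤ L := by rw [hL, hwl]; simp
  set u : ℕ → Fin n := fun k => wl.getD k d with hu
  have hwu : (List.range' 0 L).map u = wl := map_getD wl d
  have hpar : ∀ a, parikh wl a = sC u L a := by
    intro a
    rw [← count_map_range, hwu]; rfl
  have hta : ∀ a, parikh wl a = f a + ∑ p ∈ P, t p * p a := by
    intro a
    rw [ht]
    simp [Finset.sum_apply]
  have htot : ∀ a, total L u (sM u f) a = ∑ p ∈ P, (t p : ℝ) * (p a : ℝ) := by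
    intro a
    rw [total_sM, ← hpar, min_eq_right (by rw [hta]; omega), hta]
    push_cast
    ring
  obtain ⟨cs, hcs⟩ := exists_chords hP L u (sM u f) (sM_nonneg u f)
    ⟨fun p => (t p : ℝ), fun p _ => by positivity, by
      funext a
      rw [htot, Finset.sum_apply]
      rfl⟩
  obtain ⟨hok, hnc, hreal⟩ := id hcs
  set G : ℕ → ℕ → Prop := fun s t => Good (pairs cs) s t ∧ t < L with hG
  -- the box
  have hbox : ∀ s t, s ≤ t → G s t → Box R (sR P U u cs s t) := by
    rintro s t hst ⟨hg, htL⟩ a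
    obtain ⟨h1, h2⟩ := leave_bound hcs (sM_le_one u f) hB hst htL hg a
    obtain ⟨h3, h4⟩ := free_bound u f a s t
    have h5 : ∑ v ∈ P, (sg U (ins cs s t v) : ℝ) * (v a : ℝ) ≤
        ∑ v ∈ P, ins cs s t v * (v a : ℝ) := by
      refine Finset.sum_le_sum fun v hv => ?_
      exact mul_le_mul_of_nonneg_right (sg_le U (ins_nonneg hcs s t v)) (by positivity)
    have h6 : ∑ v ∈ P, ins cs s t v * (v a : ℝ) - P.card * ((U + 1) * B) ≤
        ∑ v ∈ P, (sg U (ins cs s t v) : ℝ) * (v a : ℝ) := by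
      have h7 : (P.card : ℝ) * ((U + 1) * B) = ∑ _v ∈ P, ((U : ℝ) + 1) * B := by
        rw [Finset.sum_const, nsmul_eq_mul]
      rw [h7, ← Finset.sum_sub_distrib]
      refine Finset.sum_le_sum fun v hv => ?_
      have h8 := le_sg U (ins cs s t v)
      have h9 : (v a : ℝ) ≤ B := by exact_mod_cast hB v hv a
      have h10 : (0 : ℝ) ≤ v a := by positivity
      have h11 : (ins cs s t v - (U + 1)) * (v a : ℝ) ≤ (sg U (ins cs s t v) : ℝ) * (v a : ℝ) :=
        mul_le_mul_of_nonneg_right h8 h10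
      have h12 : ((U : ℝ) + 1) * (v a : ℝ) ≤ ((U : ℝ) + 1) * B :=
        mul_le_mul_of_nonneg_left h9 (by positivity)
      linarith
    have h13 : (f a : ℝ) ≤ ∑ b, (f b : ℝ) :=
      Finset.single_le_sum (f := fun b => (f b : ℝ)) (fun b _ => by positivity)
        (Finset.mem_univ a)
    have hcast : ((sR P U u cs s t a : ℤ) : ℝ) =
        ∑ v ∈ P, (sg U (ins cs s t v) : ℝ) * (v a : ℝ) -
        ∑ k ∈ Finset.Icc s t, if u k = a then (1 : ℝ) else 0 := by
      unfold sR; push_cast; rfl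
    have hRc : (R : ℝ) = P.card * ((U + 1) * B) + 2 + 2 * B + ∑ b, (f b : ℝ) := by
      rw [hR]; push_cast; rfl
    have hBp : (0 : ℝ) ≤ B := by positivity
    have hCp : (0 : ℝ) ≤ P.card * ((U + 1) * B) := by positivity
    have hSp : (0 : ℝ) ≤ ∑ b, (f b : ℝ) := Finset.sum_nonneg fun b _ => by positivity
    have habs : |((sR P U u cs s t a : ℤ) : ℝ)| ≤ (R : ℝ) := by
      rw [hcast, hRc, abs_le]
      constructor <;> linarith
    exact_mod_cast habs
  have hsplit : ∀ s t, s < t → G s t → ∃ k, s ≤ k ∧ k < t ∧ G s k ∧ G (k + 1) t ∧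
      sR P U u cs s t - sR P U u cs s k - sR P U u cs (k + 1) t ∈ Kz P := by
    rintro s t hst ⟨hg, htL⟩
    have hnc' : ∀ e ∈ pairs cs, ∀ g ∈ pairs cs, ¬ (e.1 < g.1 ∧ g.1 < e.2 ∧ e.2 < g.2) := by
      rintro _ ⟨c, hc, rfl⟩ _ ⟨c', hc', rfl⟩
      exact hnc c hc c' hc'
    obtain ⟨k, hk1, hk2, hg1, hg2⟩ := good_split hnc' hst hg
    refine ⟨k, hk1, hk2, ⟨hg1, hk2.trans htL⟩, ⟨hg2, htL⟩, ?_⟩
    refine mem_Kz_of (c := fun v => sg U (ins cs s t v) - sg U (ins cs s k v) -
      sg U (ins cs (k + 1) t v)) (fun v _ => ?_) fun a => ?_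
    · have h1 := sg_add U (ins_nonneg hcs s k v) (ins_nonneg hcs (k + 1) t v)
      have h2 := sg_mono U (ins_add_le hcs hk1 hk2 v)
      linarith
    · simp only [Pi.sub_apply, sR]
      have h3 : ∑ j ∈ Finset.Icc s t, (if u j = a then (1 : ℤ) else 0) =
          ∑ j ∈ Finset.Icc s k, (if u j = a then (1 : ℤ) else 0) +
          ∑ j ∈ Finset.Icc (k + 1) t, (if u j = a then (1 : ℤ) else 0) := by
        rw [← Finset.sum_union]
        · congr 1
          ext j
          simp only [Finset.mem_Icc, Finset.mem_union]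
          omega
        · rw [Finset.disjoint_left]
          intro j hj hj'
          rw [Finset.mem_Icc] at hj hj'
          omega
      rw [h3]
      have h4 : ∑ v ∈ P, (sg U (ins cs s t v) - sg U (ins cs s k v) -
          sg U (ins cs (k + 1) t v)) * (v a : ℤ) =
          ∑ v ∈ P, sg U (ins cs s t v) * (v a : ℤ) - ∑ v ∈ P, sg U (ins cs s k v) * (v a : ℤ) -
          ∑ v ∈ P, sg U (ins cs (k + 1) t v) * (v a : ℤ) := by
        rw [← Finset.sum_sub_distrib, ← Finset.sum_sub_distrib]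
        exact Finset.sum_congr rfl fun v _ => by ring
      rw [h4]
      ring
  have hbase : ∀ s, G s s → ez (u s) + sR P U u cs s s ∈ Kz P := by
    intro s _
    refine mem_Kz_of (c := fun v => sg U (ins cs s s v)) (fun v _ => sg_nonneg _ _) fun a => ?_
    simp only [Pi.add_apply, sR, ez, Finset.Icc_self, Finset.sum_singleton]
    ring
  have hwhole : G 0 (L - 1) := by
    refine ⟨good_whole ?_, by omega⟩
    rintro _ ⟨c, hc, rfl⟩
    exact (hok c hc).2.1
  have hmain := RG_complete u (sR P U u cs) G hbox hsplit hbase 0 (L - 1) (Nat.zero_le _) hwhole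
  rw [show L - 1 + 1 - 0 = L by omega, hwu] at hmain
  -- the top rule
  have hc0 : ∀ v, 0 ≤ ins cs 0 (L - 1) v := fun v => ins_nonneg hcs 0 (L - 1) v
  have hfl0 : ∀ v, 0 ≤ ⌊ins cs 0 (L - 1) v⌋ := fun v => Int.floor_nonneg.2 (hc0 v)
  have hins : ∀ a, ∑ v ∈ P, ins cs 0 (L - 1) v * (v a : ℝ) =
      ((∑ p ∈ P, t p * p a : ℕ) : ℝ) := by
    intro a
    rw [ins_whole hcs a, htot]
    push_cast; rfl
  -- the rest
  have hyz : ∀ a, ∃ y : ℕ, (y : ℤ) = (∑ p ∈ P, t p * p a : ℕ) -
      ∑ v ∈ P, ⌊ins cs 0 (L - 1) v⌋ * (v a : ℤ) ∧ y < P.card * B + 1 := by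
    intro a
    have h1 : (0 : ℝ) ≤ ((∑ p ∈ P, t p * p a : ℕ) : ℝ) -
        ∑ v ∈ P, (⌊ins cs 0 (L - 1) v⌋ : ℝ) * (v a : ℝ) := by
      rw [← hins, ← Finset.sum_sub_distrib]
      refine Finset.sum_nonneg fun v _ => ?_
      rw [← sub_mul]
      exact mul_nonneg (by linarith [Int.floor_le (ins cs 0 (L - 1) v)]) (by positivity)
    have h2 : ((∑ p ∈ P, t p * p a : ℕ) : ℝ) -
        ∑ v ∈ P, (⌊ins cs 0 (L - 1) v⌋ : ℝ) * (v a : ℝ) ≤ P.card * B := by
      rw [← hins, ← Finset.sum_sub_distrib]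
      calc ∑ v ∈ P, (ins cs 0 (L - 1) v * (v a : ℝ) - (⌊ins cs 0 (L - 1) v⌋ : ℝ) * (v a : ℝ))
          ≤ ∑ _v ∈ P, (B : ℝ) := by
            refine Finset.sum_le_sum fun v hv => ?_
            rw [← sub_mul]
            have h3 : (v a : ℝ) ≤ B := by exact_mod_cast hB v hv a
            have h4 := Int.lt_floor_add_one (ins cs 0 (L - 1) v)
            have h5 := Int.floor_le (ins cs 0 (L - 1) v)
            have h6 : (0 : ℝ) ≤ v a := by positivity
            calc (ins cs 0 (L - 1) v - (⌊ins cs 0 (L - 1) v⌋ : ℝ)) * (v a : ℝ)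
                ≤ 1 * (v a : ℝ) := mul_le_mul_of_nonneg_right (by linarith) h6
              _ ≤ B := by linarith
        _ = P.card * B := by rw [Finset.sum_const, nsmul_eq_mul]
    have h1' : (0 : ℤ) ≤ (∑ p ∈ P, t p * p a : ℕ) -
        ∑ v ∈ P, ⌊ins cs 0 (L - 1) v⌋ * (v a : ℤ) := by exact_mod_cast h1
    have h2' : ((∑ p ∈ P, t p * p a : ℕ) : ℤ) -
        ∑ v ∈ P, ⌊ins cs 0 (L - 1) v⌋ * (v a : ℤ) ≤ P.card * B := by exact_mod_cast h2
    obtain ⟨y, hy⟩ := Int.eq_ofNat_of_zero_le h1'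
    refine ⟨y, hy.symm, ?_⟩
    rw [hy] at h2'
    have : y ≤ P.card * B := by exact_mod_cast h2'
    omega
  choose y hy1 hy2 using hyz
  have hymem : y ∈ Fintype.piFinset (fun _ : Fin n => Finset.range (P.card * B + 1)) := by
    rw [Fintype.mem_piFinset]
    intro a
    exact Finset.mem_range.2 (hy2 a)
  obtain ⟨t', ht'⟩ := hU y hymem (fun v => ⌊ins cs 0 (L - 1) v⌋.toNat) ⟨t, by
    funext a
    simp only [Pi.add_apply, Finset.sum_apply, Pi.smul_apply, smul_eq_mul]
    have h1 := hy1 a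
    have h2 : ((∑ v ∈ P, ⌊ins cs 0 (L - 1) v⌋.toNat * v a : ℕ) : ℤ) =
        ∑ v ∈ P, ⌊ins cs 0 (L - 1) v⌋ * (v a : ℤ) := by
      push_cast
      refine Finset.sum_congr rfl fun v _ => ?_
      rw [Int.toNat_of_nonneg (hfl0 v)]
    have h3 : ((y a + ∑ v ∈ P, ⌊ins cs 0 (L - 1) v⌋.toNat * v a : ℕ) : ℤ) =
        ((∑ p ∈ P, t p * p a : ℕ) : ℤ) := by
      rw [Nat.cast_add, h2, h1]; ring
    exact_mod_cast h3⟩
  have htop : (fun a => -(f a : ℤ)) - sR P U u cs 0 (L - 1) - 0 ∈ Kz P := by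
    refine ⟨t', ?_⟩
    funext a
    have h1 := congrFun ht' a
    simp only [Pi.add_apply, Finset.sum_apply, Pi.smul_apply, smul_eq_mul] at h1
    have h2 : ((y a : ℕ) : ℤ) + ∑ v ∈ P, ((min ⌊ins cs 0 (L - 1) v⌋.toNat U : ℕ) : ℤ) * (v a : ℤ) =
        ∑ p ∈ P, (t' p : ℤ) * (p a : ℤ) := by exact_mod_cast h1
    rw [← h2, hy1 a]
    have h3 : ∑ v ∈ P, ((min ⌊ins cs 0 (L - 1) v⌋.toNat U : ℕ) : ℤ) * (v a : ℤ) =
        ∑ v ∈ P, ⌊ins cs 0 (L - 1) v⌋ * (v a : ℤ) -
        ∑ v ∈ P, sg U (ins cs 0 (L - 1) v) * (v a : ℤ) := by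
      rw [← Finset.sum_sub_distrib]
      refine Finset.sum_congr rfl fun v _ => ?_
      rw [← floor_sub_sg U (hc0 v)]
      ring
    rw [h3]
    simp only [Pi.sub_apply, Pi.zero_apply, sR]
    have h4 : ∑ k ∈ Finset.Icc 0 (L - 1), (if u k = a then (1 : ℤ) else 0) =
        (sC u L a : ℤ) := by
      unfold sC
      push_cast
      apply Finset.sum_congr _ fun _ _ => rfl
      ext k
      simp only [Finset.mem_Icc, Finset.mem_range]
      omega
    have h5 : (sC u L a : ℤ) = (f a : ℤ) + ((∑ p ∈ P, t p * p a : ℕ) : ℤ) := by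
      rw [← hpar, hta]; push_cast; ring
    rw [h4, h5]
    ring
  rw [mem_lang, der_nt_iff]
  refine ⟨⟨fun a => -(f a : ℤ), [nonterminal (sR P U u cs 0 (L - 1)), nonterminal 0]⟩, ?_, rfl, ?_⟩
  · refine ⟨fun a => ?_, Or.inr (Or.inr ⟨_, 0, hbox 0 (L - 1) (Nat.zero_le _) hwhole, fun a => ?_,
      rfl, htop⟩)⟩
    · show |(-(f a : ℤ))| ≤ R
      rw [abs_neg, abs_of_nonneg (Int.natCast_nonneg _), hR]
      have h1 : (f a : ℤ) ≤ ∑ b, (f b : ℤ) :=
        Finset.single_le_sum (f := fun b => (f b : ℤ)) (fun b _ => Int.natCast_nonneg _)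
          (Finset.mem_univ a)
      have h2 : (0 : ℤ) ≤ B := Int.natCast_nonneg _
      linarith
    · show |(0 : ℤ)| ≤ R
      rw [abs_zero]; exact hR0
  · have h0 : Der (RG P R) [nonterminal (0 : Fin n → ℤ)] [] := by
      rw [der_nt_iff]
      exact ⟨⟨0, []⟩, ⟨fun a => by show |(0 : ℤ)| ≤ R; rw [abs_zero]; exact hR0,
        Or.inl ⟨rfl, zero_mem_Kz P⟩⟩, rfl, .nil⟩
    have h1 : Der (RG P R) ([nonterminal (sR P U u cs 0 (L - 1))] ++ [nonterminal (0 : Fin n → ℤ)])
        (wl ++ []) := Der.append hmain h0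
    simpa using h1

theorem isContextFree_single (f : Fin n → ℕ) (P : Finset (Fin n → ℕ)) (hP : Cuttable P) :
    (comLang (periodSet {f} P)).IsContextFree := by
  classical
  obtain ⟨B, hB⟩ : ∃ B : ℕ, ∀ v ∈ P, ∀ a, v a ≤ B := by
    refine ⟨∑ v ∈ P, ∑ a, v a, fun v hv a => ?_⟩
    calc v a ≤ ∑ b, v b := Finset.single_le_sum (f := fun b => v b) (fun b _ => Nat.zero_le _)
          (Finset.mem_univ a)
      _ ≤ ∑ v ∈ P, ∑ b, v b := Finset.single_le_sum (f := fun v => ∑ b, v b)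
          (fun _ _ => Nat.zero_le _) hv
  obtain ⟨U, hU⟩ := exists_trunc P
    (Fintype.piFinset (fun _ : Fin n => Finset.range (P.card * B + 1)))
  obtain ⟨R, hR⟩ : ∃ R : ℤ, R = P.card * ((U + 1) * B) + 2 + 2 * B + ∑ a, (f a : ℤ) := ⟨_, rfl⟩
  have hR0 : 0 ≤ R := by
    have hsum0 : 0 ≤ ∑ a, (f a : ℤ) := Finset.sum_nonneg fun a _ => Int.natCast_nonneg _
    rw [hR]; positivity
  have key : comLang (periodSet {f} P) = lang (RG P R) (fun a => -(f a : ℤ)) := by
    ext w
    constructor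
    · rintro ⟨c, hc, t, ht⟩
      rw [Finset.mem_singleton] at hc
      subst hc
      rcases eq_or_ne w [] with rfl | hw
      · rw [mem_lang, der_nt_iff]
        refine ⟨⟨fun a => -(c a : ℤ), []⟩, ⟨fun a => ?_, Or.inl ⟨rfl, ⟨t, ?_⟩⟩⟩, rfl, .nil⟩
        · have h1 := congrFun ht a
          have h2 : parikh ([] : List (Fin n)) a = 0 := rfl
          rw [h2] at h1
          simp only [Pi.add_apply] at h1
          have h3 : c a = 0 := by omega
          show |(-(c a : ℤ))| ≤ R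
          rw [h3]; simpa using hR0
        · funext a
          have h1 := congrFun ht a
          have h2 : parikh ([] : List (Fin n)) a = 0 := rfl
          rw [h2] at h1
          simp only [Pi.add_apply, Finset.sum_apply, Pi.smul_apply, smul_eq_mul] at h1
          have h3 : ((c a + ∑ p ∈ P, t p * p a : ℕ) : ℤ) = 0 := by rw [← h1]; rfl
          push_cast at h3
          linarith
      · exact complete_aux c P hP hB hU hR w hw t ht
    · intro hw
      obtain ⟨t, ht⟩ := RG_sound hw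
      refine ⟨f, Finset.mem_singleton_self f, t, ?_⟩
      funext a
      have h1 := congrFun ht a
      simp only [Pi.add_apply] at h1
      simp only [Pi.add_apply, Finset.sum_apply, Pi.smul_apply, smul_eq_mul]
      have h2 : (parikh w a : ℤ) = ((f a + ∑ p ∈ P, t p * p a : ℕ) : ℤ) := by
        push_cast; linarith
      exact_mod_cast h2
  rw [key]
  exact isContextFree_lang (RG_finite P R) _

theorem isContextFree_of_cuttable (F P : Finset (Fin n → ℕ)) (hP : Cuttable P) :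
    (comLang (periodSet F P)).IsContextFree := by
  classical
  induction F using Finset.induction_on with
  | empty =>
    have h : comLang (periodSet ∅ P) =
        lang (∅ : Set (ContextFreeRule (Fin n) Unit)) () := by
      ext w
      constructor
      · rintro ⟨c, hc, _⟩
        simp at hc
      · intro hw
        rw [mem_lang, der_nt_iff] at hw
        obtain ⟨r, hr, _⟩ := hw
        exact hr.elim
    rw [h]
    exact isContextFree_lang Set.finite_empty _
  | insert f F _ ih =>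
    have h : comLang (periodSet (insert f F) P) =
        comLang (periodSet {f} P) ⊔ comLang (periodSet F P) := by
      ext w
      constructor
      · rintro ⟨c, hc, t, ht⟩
        rcases Finset.mem_insert.1 hc with rfl | hc
        · exact Or.inl ⟨c, Finset.mem_singleton_self c, t, ht⟩
        · exact Or.inr ⟨c, hc, t, ht⟩
      · rintro (⟨c, hc, t, ht⟩ | ⟨c, hc, t, ht⟩)
        · rw [Finset.mem_singleton] at hc
          subst hc
          exact ⟨c, Finset.mem_insert_self _ _, t, ht⟩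
        · exact ⟨c, Finset.mem_insert_of_mem hc, t, ht⟩
    rw [h]
    exact isContextFree_sup (isContextFree_single f P hP) ih

end Pool.Agent.Helper22.CS
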