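import Pool.Agent.Helper22.CS.Nec
import Pool.Agent.Helper22.CS.Suff

/-! Theorem D of MP_434a84_lc. -/

namespace Pool.Agent.Helper22.CS

open Pool.Agent.Helper22.FL

variable {n : ℕ}

theorem comm_eq_comLang (L : Language (Fin n)) : comm L = comLang (parikh '' L) := by
  ext w
  constructor
  · rintro ⟨v, hv, hwv⟩
    exact ⟨v, hv, funext fun a => (hwv.count_eq a).symm⟩
  · rintro ⟨v, hv, hwv⟩
    exact ⟨v, hv, List.perm_iff_count.2 fun a => (congrFun hwv a).symm⟩

theorem main (F P : Finset (Fin n → ℕ)) (hF : F.Nonempty) (L : Language (Fin n))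
    (hL : parikh '' L = periodSet F P) : (comm L).IsContextFree ↔ Cuttable P := by
  rw [comm_eq_comLang, hL]
  exact ⟨cuttable_of_isContextFree F P hF, isContextFree_of_cuttable F P⟩

end Pool.Agent.Helper22.CS
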