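import Mathlib

/-! Module BLOCKS of MP_434a84_lc, theorem D. -/

namespace Pool.Agent.Helper22.CS

/-- the word consisting of blocks of equal letters -/
def bword {α : Type} (bs : List (α × ℕ)) : List α := bs.flatMap fun c => List.replicate c.2 c.1

theorem bword_nil {α : Type} : bword ([] : List (α × ℕ)) = [] := rfl

theorem bword_cons {α : Type} (c : α × ℕ) (bs : List (α × ℕ)) :
    bword (c :: bs) = List.replicate c.2 c.1 ++ bword bs := by
  simp [bword]

/-- a block word with given sequence of letters and given letter counts -/
theorem exists_blocks {α : Type} [DecidableEq α] (K : ℕ) (l : List α) (X : α → ℕ)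
    (hX : ∀ b ∈ l, K * l.count b ≤ X b) :
    ∃ bs : List (α × ℕ), bs.map Prod.fst = l ∧ (∀ c ∈ bs, K ≤ c.2) ∧
      (∀ a ∈ l, (bword bs).count a = X a) ∧ ∀ a, a ∉ l → (bword bs).count a = 0 := by
  induction l generalizing X with
  | nil => exact ⟨[], rfl, by simp, by simp, by simp [bword_nil]⟩
  | cons b l' ih =>
    by_cases hb : b ∈ l'
    · have hXb : K * l'.count b + K ≤ X b := by
        have := hX b (by simp)
        rw [List.count_cons_self] at this
        nlinarith
      obtain ⟨bs, h1, h2, h3, h4⟩ := ih (fun a => if a = b then X b - K else X a) (by
        intro c hc
        by_cases hcb : c = b
        · subst hcb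
          simp only [if_true]
          omega
        · simp only [if_neg hcb]
          have := hX c (by simp [hc])
          rwa [List.count_cons_of_ne (fun h => hcb h.symm)] at this)
      refine ⟨(b, K) :: bs, by simp [h1], ?_, ?_, ?_⟩
      · intro c hc
        rcases List.mem_cons.1 hc with h | h
        · subst h; exact le_rfl
        · exact h2 c h
      · intro a ha
        have ha' : a ∈ l' := by
          rcases List.mem_cons.1 ha with h | h
          · rw [h]; exact hb
          · exact h
        rw [bword_cons, List.count_append, h3 a ha']
        by_cases hab : a = b
        · subst hab
          simp only [List.count_replicate_self, if_true]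
          have : K ≤ X a := by
            have := hX a (by simp)
            rw [List.count_cons_self] at this
            nlinarith
          omega
        · simp only [if_neg hab]
          rw [List.count_eq_zero_of_not_mem (by
            intro h
            exact hab (List.eq_of_mem_replicate h)), zero_add]
      · intro a ha
        have ha1 : a ≠ b := fun h => ha (by simp [h])
        have ha2 : a ∉ l' := fun h => ha (by simp [h])
        rw [bword_cons, List.count_append, h4 a ha2, List.count_eq_zero_of_not_mem (by
            intro h
            exact ha1 (List.eq_of_mem_replicate h))]
    · obtain ⟨bs, h1, h2, h3, h4⟩ := ih X (by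
        intro c hc
        have hcb : c ≠ b := fun h => hb (h ▸ hc)
        have := hX c (by simp [hc])
        rwa [List.count_cons_of_ne (fun h => hcb h.symm)] at this)
      have hKX : K ≤ X b := by
        have := hX b (by simp)
        rw [List.count_cons_self] at this
        nlinarith
      refine ⟨(b, X b) :: bs, by simp [h1], ?_, ?_, ?_⟩
      · intro c hc
        rcases List.mem_cons.1 hc with h | h
        · subst h; exact hKX
        · exact h2 c h
      · intro a ha
        rw [bword_cons, List.count_append]
        by_cases hab : a = b
        · subst hab
          simp only [List.count_replicate_self]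
          rw [h4 a hb, add_zero]
        · have ha' : a ∈ l' := by
            rcases List.mem_cons.1 ha with h | h
            · exact absurd h hab
            · exact h
          rw [h3 a ha', List.count_eq_zero_of_not_mem (by
            intro h
            exact hab (List.eq_of_mem_replicate h)), zero_add]
      · intro a ha
        have ha1 : a ≠ b := fun h => ha (by simp [h])
        have ha2 : a ∉ l' := fun h => ha (by simp [h])
        rw [bword_cons, List.count_append, h4 a ha2, List.count_eq_zero_of_not_mem (by
            intro h
            exact ha1 (List.eq_of_mem_replicate h))]

/-- a short factor of a block word meets at most two consecutive blocks -/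
theorem window {α : Type} {N : α → α → Prop} (K : ℕ) (bs : List (α × ℕ))
    (hch : (bs.map Prod.fst).IsChain N) (hK : ∀ c ∈ bs, K ≤ c.2) (g u t z : List α)
    (h : bword bs ++ g = u ++ t ++ z) (ht : t.length ≤ K) :
    (∀ c ∈ t, c ∈ g) ∨ ∃ a ∈ bs.map Prod.fst, ∃ b ∈ bs.map Prod.fst, (a = b ∨ N a b) ∧
      ∀ c ∈ t, c = a ∨ c = b ∨ c ∈ g := by
  induction bs generalizing u with
  | nil =>
    left
    intro c hc
    rw [bword_nil, List.nil_append] at h
    rw [h]
    simp [hc]
  | cons d bs' ih =>
    obtain ⟨a, k⟩ := d
    rw [bword_cons] at h
    simp only at h
    by_cases hku : k ≤ u.length
    · -- drop the block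
      have h1 : bword bs' ++ g = u.drop k ++ t ++ z := by
        have h2 := congrArg (List.drop k) h
        rw [List.append_assoc, List.append_assoc u, List.drop_append_of_le_length hku] at h2
        have h3 : List.drop k (List.replicate k a ++ (bword bs' ++ g)) = bword bs' ++ g := by
          have h4 := List.drop_left (l₁ := List.replicate k a) (l₂ := bword bs' ++ g)
          rwa [List.length_replicate] at h4
        rw [h3] at h2
        rw [h2, List.append_assoc]
      have h2 := ih (by
          rw [List.map_cons] at hch
          exact hch.tail) (fun c hc => hK c (by simp [hc])) (u.drop k) h1
      rcases h2 with h2 | ⟨x, hx, y, hy, hxy, h3⟩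
      · left; exact h2
      · right
        refine ⟨x, ?_, y, ?_, hxy, h3⟩
        · rw [List.map_cons]; exact List.mem_cons_of_mem _ hx
        · rw [List.map_cons]; exact List.mem_cons_of_mem _ hy
    · push Not at hku
      right
      have h1 : List.replicate (k - u.length) a ++ (bword bs' ++ g) = t ++ z := by
        have h2 := congrArg (List.drop u.length) h
        rw [List.append_assoc, List.drop_append, List.append_assoc u, List.drop_append] at h2
        simpa [show u.length - k = 0 by omega] using h2
      cases bs' with
      | nil =>
        refine ⟨a, by simp, a, by simp, Or.inl rfl, ?_⟩
        intro c hc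
        have hc' : c ∈ List.replicate (k - u.length) a ++ (bword [] ++ g) := by
          rw [h1]; simp [hc]
        rw [bword_nil, List.nil_append, List.mem_append] at hc'
        rcases hc' with h2 | h2
        · left; exact List.eq_of_mem_replicate h2
        · right; right; exact h2
      | cons d' bs'' =>
        obtain ⟨b, k'⟩ := d'
        have hk' : K ≤ k' := hK (b, k') (by simp)
        refine ⟨a, by simp, b, by simp, Or.inr ?_, ?_⟩
        · simp only [List.map_cons] at hch
          exact (List.isChain_cons_cons.1 hch).1
        · intro c hc
          have ht' : t = (List.replicate (k - u.length) a ++ List.replicate k' b).take t.length := by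
            have h2 := congrArg (List.take t.length) h1
            rw [List.take_append_of_le_length (le_refl _), List.take_length] at h2
            rw [← h2, bword_cons]
            simp only
            rw [show List.replicate (k - u.length) a ++ (List.replicate k' b ++ bword bs'' ++ g) =
              (List.replicate (k - u.length) a ++ List.replicate k' b) ++ (bword bs'' ++ g) by simp]
            have hlen : t.length ≤ (List.replicate (k - u.length) a ++ List.replicate k' b).length := by
              rw [List.length_append, List.length_replicate, List.length_replicate]
              omega
            rw [List.take_append_of_le_length hlen]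
            rw [List.length_take, min_eq_left hlen]
          rw [ht'] at hc
          have hc' := List.mem_of_mem_take hc
          rw [List.mem_append] at hc'
          rcases hc' with h2 | h2
          · left; exact List.eq_of_mem_replicate h2
          · right; left; exact List.eq_of_mem_replicate h2

end Pool.Agent.Helper22.CS
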