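import Pool.Agent.Helper22.CS.Base

/-! Module MAX of MP_434a84_lc, theorem D. -/

namespace Pool.Agent.Helper22.CS

variable {n : ℕ} {P : Finset (Fin n → ℕ)}

/-- there is a largest admissible multiple of `v` which can be subtracted from `X` -/
theorem exists_max {X : Fin n → ℝ} (hX : InCone P X) {v : Fin n → ℕ} (hv : v ≠ 0)
    {c₁ d₁ c₂ d₂ : ℝ} (h₁ : 0 ≤ d₁) (h₂ : 0 ≤ d₂) :
    ∃ l : ℝ, 0 ≤ l ∧ InCone P (X - l • toR v) ∧ l * c₁ ≤ d₁ ∧ l * c₂ ≤ d₂ ∧
      ∀ l' : ℝ, 0 ≤ l' → InCone P (X - l' • toR v) → l' * c₁ ≤ d₁ → l' * c₂ ≤ d₂ →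
        l' ≤ l := by
  classical
  -- bound
  set B : ℝ := ∑ b, |X b| with hB
  have hXB : ∀ b, X b ≤ B := fun b =>
    (le_abs_self _).trans (Finset.single_le_sum (f := fun b => |X b|) (fun i _ => abs_nonneg _)
      (Finset.mem_univ b))
  -- the compact set
  set K : Set (ℝ × (↥P → ℝ)) := {z | z ∈ Set.Icc (0 : ℝ × (↥P → ℝ)) (B, fun _ => B) ∧
    (X - z.1 • toR v = ∑ p : ↥P, z.2 p • toR (p : Fin n → ℕ)) ∧ z.1 * c₁ ≤ d₁ ∧ z.1 * c₂ ≤ d₂} with hK
  have hKc : IsCompact K := by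
    have k1 : IsClosed {z : ℝ × (↥P → ℝ) | X - z.1 • toR v = ∑ p : ↥P, z.2 p • toR (p : Fin n → ℕ)} :=
      isClosed_eq (by fun_prop) (by fun_prop)
    have k2 : IsClosed {z : ℝ × (↥P → ℝ) | z.1 * c₁ ≤ d₁} := isClosed_le (by fun_prop) (by fun_prop)
    have k3 : IsClosed {z : ℝ × (↥P → ℝ) | z.1 * c₂ ≤ d₂} := isClosed_le (by fun_prop) (by fun_prop)
    exact IsCompact.inter_right (isCompact_Icc) (k1.inter (k2.inter k3))
  -- any admissible multiple gives a point of the set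
  have key : ∀ l' : ℝ, 0 ≤ l' → InCone P (X - l' • toR v) → l' * c₁ ≤ d₁ → l' * c₂ ≤ d₂ →
      ∃ t : ↥P → ℝ, (l', t) ∈ K := by
    intro l' hl' ⟨t, ht0, ht⟩ hc₁ hc₂
    have hcoord : ∀ b, X b - l' * (v b : ℝ) = ∑ p ∈ P, t p * (p b : ℝ) := by
      intro b
      have := congrFun ht b
      simpa [toR, Finset.sum_apply] using this
    have hle : ∀ p ∈ P, ∀ b, t p * (p b : ℝ) ≤ X b - l' * (v b : ℝ) := by
      intro p hp b
      rw [hcoord b]
      exact Finset.single_le_sum (f := fun p : Fin n → ℕ => t p * (p b : ℝ))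
        (fun p hp => mul_nonneg (ht0 p hp) (Nat.cast_nonneg _)) hp
    have hle0 : ∀ b, 0 ≤ X b - l' * (v b : ℝ) := by
      intro b
      rw [hcoord b]
      exact Finset.sum_nonneg (fun p hp => mul_nonneg (ht0 p hp) (Nat.cast_nonneg _))
    refine ⟨fun p => if (p : Fin n → ℕ) = 0 then 0 else t p, ⟨?_, ?_⟩, ?_, hc₁, hc₂⟩
    · refine ⟨hl', ?_⟩
      intro p
      show (0 : ℝ) ≤ if (p : Fin n → ℕ) = 0 then 0 else t p
      split_ifs
      · exact le_rfl
      · exact ht0 p p.2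
    · refine ⟨?_, ?_⟩
      · show l' ≤ B
        obtain ⟨b, hb⟩ : ∃ b, v b ≠ 0 := by
          by_contra hcon
          push Not at hcon
          exact hv (funext hcon)
        have hb1 : (1 : ℝ) ≤ v b := by exact_mod_cast Nat.one_le_iff_ne_zero.2 hb
        have h3 := hle0 b
        have h4 := hXB b
        nlinarith
      · intro p
        show (if (p : Fin n → ℕ) = 0 then 0 else t p) ≤ B
        split_ifs with hp0
        · exact Finset.sum_nonneg (fun i _ => abs_nonneg _)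
        · obtain ⟨b, hb⟩ : ∃ b, (p : Fin n → ℕ) b ≠ 0 := by
            by_contra hcon
            push Not at hcon
            exact hp0 (funext hcon)
          have hb1 : (1 : ℝ) ≤ (p : Fin n → ℕ) b := by exact_mod_cast Nat.one_le_iff_ne_zero.2 hb
          have h3 := hle p p.2 b
          have h4 := hXB b
          have h5 := ht0 p p.2
          have h6 : 0 ≤ l' * (v b : ℝ) := by positivity
          nlinarith
    · show X - l' • toR v = ∑ p : ↥P, (if (p : Fin n → ℕ) = 0 then 0 else t p) • toR (p : Fin n → ℕ)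
      rw [ht, ← Finset.sum_coe_sort P]
      apply Finset.sum_congr rfl
      intro p _
      split_ifs with hp0
      · rw [hp0]
        funext b
        simp [toR]
      · rfl
  have hne : K.Nonempty := by
    obtain ⟨t, ht⟩ := key 0 le_rfl (by simpa using hX) (by simpa using h₁) (by simpa using h₂)
    exact ⟨_, ht⟩
  obtain ⟨⟨l, t⟩, hlt, hmax⟩ := hKc.exists_isMaxOn hne (f := Prod.fst) continuous_fst.continuousOn
  obtain ⟨⟨⟨hl0, ht0⟩, -⟩, heq, hc₁, hc₂⟩ := hlt
  refine ⟨l, hl0, ?_, hc₁, hc₂, ?_⟩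
  · refine ⟨fun p => if hp : p ∈ P then t ⟨p, hp⟩ else 0, ?_, ?_⟩
    · intro p hp
      simp only [hp, dif_pos]
      exact ht0 ⟨p, hp⟩
    · have : X - l • toR v = ∑ p : ↥P, t p • toR (p : Fin n → ℕ) := heq
      rw [this, ← Finset.sum_coe_sort P]
      apply Finset.sum_congr rfl
      intro p _
      simp
  · intro l' hl' hcone h1 h2
    obtain ⟨t', ht'⟩ := key l' hl' hcone h1 h2
    exact hmax ht'

end Pool.Agent.Helper22.CS
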