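import Pool.Agent.Helper22.CS.Face
import Pool.Agent.Helper22.CS.Max

/-! Module CHORDS of MP_434a84_lc, theorem D. -/

namespace Pool.Agent.Helper22.CS

variable {n : ℕ} {P : Finset (Fin n → ℕ)}

namespace Chordsx

/-- the positions with positive amount -/
noncomputable def posn (L : ℕ) (m : ℕ → ℝ) : Finset ℕ :=
  letI := Classical.decPred fun k : ℕ => 0 < m k
  (Finset.range L).filter fun k => 0 < m k

lemma mem_posn {L : ℕ} {m : ℕ → ℝ} {k : ℕ} : k ∈ posn L m ↔ k < L ∧ 0 < m k := by
  simp [posn]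

lemma le_total {L : ℕ} {w : ℕ → Fin n} {m : ℕ → ℝ} (hm : ∀ k, 0 ≤ m k) {k : ℕ} (hk : k < L) :
    m k ≤ total L w m (w k) := by
  unfold total
  have := Finset.single_le_sum (f := fun j => if w j = w k then m j else 0)
    (fun j _ => by
      show (0 : ℝ) ≤ if w j = w k then m j else 0
      split_ifs
      · exact hm j
      · exact le_rfl) (Finset.mem_range.mpr hk)
  simpa using this

lemma exists_pos_of_total {L : ℕ} {w : ℕ → Fin n} {m : ℕ → ℝ} {a : Fin n}
    (h : 0 < total L w m a) : ∃ k < L, w k = a ∧ 0 < m k := by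
  unfold total at h
  by_contra hcon
  push Not at hcon
  have : ∑ k ∈ Finset.range L, (if w k = a then m k else 0) ≤ 0 := by
    apply Finset.sum_nonpos
    intro k hk
    split_ifs with h1
    · exact hcon k (Finset.mem_range.mp hk) h1
    · exact le_rfl
  linarith

lemma total_at {L : ℕ} {w : ℕ → Fin n} {i j : ℕ} {v : Fin n → ℕ} {l : ℝ} (hij : i ≤ j)
    (hj : j < L) (hl : letters v = {w i, w j}) (hne : i < j → w i ≠ w j) :
    total L w (fun k => Chord.at w ⟨i, j, v, l⟩ k) = l • toR v := by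
  funext a
  unfold total Chord.at
  simp only [Pi.smul_apply, smul_eq_mul, toR]
  have hv0 : ∀ b, b ≠ w i → b ≠ w j → v b = 0 := by
    intro b h1 h2
    by_contra h3
    have : b ∈ letters v := mem_letters.mpr h3
    rw [hl] at this
    simp only [Finset.mem_insert, Finset.mem_singleton] at this
    tauto
  rcases eq_or_lt_of_le hij with h | h
  · subst h
    rw [Finset.sum_eq_single i]
    · by_cases ha : w i = a
      · subst ha; simp
      · rw [if_neg ha, hv0 a (fun h => ha h.symm) (fun h => ha h.symm)]; simp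
    · intro k _ hk
      simp [hk]
    · intro hi
      exact absurd (Finset.mem_range.mpr hj) hi
  · have hn := hne h
    rw [Finset.sum_eq_add i j h.ne]
    · by_cases ha : w i = a
      · subst ha
        have hn' : ¬ w j = w i := fun h => hn h.symm
        simp [hn']
      · by_cases hb : w j = a
        · subst hb
          simp [ha]
        · rw [if_neg ha, if_neg hb, hv0 a (fun h => ha h.symm) (fun h => hb h.symm)]; simp
    · rintro k _ ⟨hk1, hk2⟩
      simp [hk1, hk2]
    · intro hi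
      exact absurd (Finset.mem_range.mpr (h.trans hj)) hi
    · intro hi
      exact absurd (Finset.mem_range.mpr hj) hi

lemma total_sub {L : ℕ} {w : ℕ → Fin n} {m m' : ℕ → ℝ} :
    total L w (fun k => m k - m' k) = total L w m - total L w m' := by
  funext a
  unfold total
  simp only [Pi.sub_apply]
  rw [← Finset.sum_sub_distrib]
  refine Finset.sum_congr rfl fun k _ => ?_
  split_ifs <;> simp

/-- smaller multiples may be subtracted, too -/
lemma inCone_smaller {X : Fin n → ℝ} (hX : InCone P X) {v : Fin n → ℕ} {ε ε' : ℝ} (hε : 0 < ε)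
    (h : InCone P (X - ε • toR v)) (h0 : 0 ≤ ε') (h1 : ε' ≤ ε) : InCone P (X - ε' • toR v) := by
  have e : X - ε' • toR v = (1 - ε' / ε) • X + (ε' / ε) • (X - ε • toR v) := by
    have h2 : (ε' / ε) * ε = ε' := by field_simp
    rw [smul_sub, smul_smul, h2, sub_smul, one_smul]
    abel
  rw [e]
  have h3 : ε' / ε ≤ 1 := by rw [div_le_one hε]; exact h1
  have h4 : 0 ≤ ε' / ε := by positivity
  exact (hX.smul (by linarith)).add (h.smul h4)

/-- one chord can be removed -/
lemma step {L : ℕ} {w : ℕ → Fin n} {m : ℕ → ℝ} (hm : ∀ k, 0 ≤ m k)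
    (hc : InCone P (total L w m)) {i j : ℕ} {v : Fin n → ℕ} (hij : i ≤ j) (hj : j < L)
    (hv : v ∈ removable P (total L w m)) (hl : letters v = {w i, w j})
    (hne : i < j → w i ≠ w j) (hmi : 0 < m i) (hmj : 0 < m j) :
    ∃ l : ℝ, 0 < l ∧ (∀ k, 0 ≤ m k - Chord.at w ⟨i, j, v, l⟩ k) ∧
      InCone P (total L w fun k => m k - Chord.at w ⟨i, j, v, l⟩ k) ∧
      (posn L fun k => m k - Chord.at w ⟨i, j, v, l⟩ k).card +
        (removable P (total L w fun k => m k - Chord.at w ⟨i, j, v, l⟩ k)).card <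
      (posn L m).card + (removable P (total L w m)).card := by
  have hvi : v (w i) ≠ 0 := by
    rw [← mem_letters, hl]; simp
  have hvj : v (w j) ≠ 0 := by
    rw [← mem_letters, hl]; simp
  have hvi' : (0 : ℝ) < (v (w i) : ℝ) := by positivity
  have hvj' : (0 : ℝ) < (v (w j) : ℝ) := by positivity
  have hv0 : v ≠ 0 := by
    intro h; rw [h] at hvi; exact hvi rfl
  obtain ⟨hvP, ε, hε, hεc⟩ := mem_removable.mp hv
  obtain ⟨l, hl0, hlc, hli, hlj, hmax⟩ := exists_max hc hv0 (c₁ := (v (w i) : ℝ)) (d₁ := m i)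
    (c₂ := (v (w j) : ℝ)) (d₂ := m j) (hm i) (hm j)
  have hlpos : 0 < l := by
    have e1 : 0 < min ε (min (m i / v (w i)) (m j / v (w j))) := by positivity
    refine lt_of_lt_of_le e1 (hmax _ e1.le ?_ ?_ ?_)
    · exact inCone_smaller hc hε hεc e1.le (min_le_left _ _)
    · rw [← le_div_iff₀ hvi']
      exact (min_le_right _ _).trans (min_le_left _ _)
    · rw [← le_div_iff₀ hvj']
      exact (min_le_right _ _).trans (min_le_right _ _)
  have hT : total L w (fun k => m k - Chord.at w ⟨i, j, v, l⟩ k) =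
      total L w m - l • toR v := by
    rw [total_sub, total_at hij hj hl hne]
  have hat0 : ∀ k, 0 ≤ Chord.at w ⟨i, j, v, l⟩ k := by
    intro k
    unfold Chord.at
    split_ifs <;> positivity
  have hati : Chord.at w ⟨i, j, v, l⟩ i = l * v (w i) := by
    unfold Chord.at; simp
  have hatj : Chord.at w ⟨i, j, v, l⟩ j = l * v (w j) := by
    unfold Chord.at; simp
  have hnn : ∀ k, 0 ≤ m k - Chord.at w ⟨i, j, v, l⟩ k := by
    intro k
    by_cases h1 : k = i
    · subst h1; rw [hati]; linarith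
    · by_cases h2 : k = j
      · subst h2; rw [hatj]; linarith
      · have : Chord.at w ⟨i, j, v, l⟩ k = 0 := by
          unfold Chord.at; simp [h1, h2]
        rw [this]; linarith [hm k]
  have hsub1 : posn L (fun k => m k - Chord.at w ⟨i, j, v, l⟩ k) ⊆ posn L m := by
    intro k hk
    rw [mem_posn] at hk ⊢
    refine ⟨hk.1, ?_⟩
    have := hat0 k
    linarith [hk.2]
  have hsub2 : removable P (total L w fun k => m k - Chord.at w ⟨i, j, v, l⟩ k) ⊆
      removable P (total L w m) := by
    rw [hT]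
    have := removable_mono (P := P) (X := total L w m - l • toR v) (Y := l • toR v)
      ((inCone_of_mem hvP).smul hl0)
    rwa [sub_add_cancel] at this
  refine ⟨l, hlpos, hnn, by rw [hT]; exact hlc, ?_⟩
  have hi : i < L := lt_of_le_of_lt hij hj
  by_cases hz : m i - Chord.at w ⟨i, j, v, l⟩ i = 0
  · have : (posn L fun k => m k - Chord.at w ⟨i, j, v, l⟩ k).card < (posn L m).card := by
      apply Finset.card_lt_card
      refine ⟨hsub1, fun h => ?_⟩
      have h1 : i ∈ posn L (fun k => m k - Chord.at w ⟨i, j, v, l⟩ k) :=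
        h (mem_posn.mpr ⟨hi, hmi⟩)
      rw [mem_posn] at h1
      exact absurd h1.2 (by rw [hz]; exact lt_irrefl _)
    have h2 := Finset.card_le_card hsub2
    omega
  by_cases hz' : m j - Chord.at w ⟨i, j, v, l⟩ j = 0
  · have : (posn L fun k => m k - Chord.at w ⟨i, j, v, l⟩ k).card < (posn L m).card := by
      apply Finset.card_lt_card
      refine ⟨hsub1, fun h => ?_⟩
      have h1 : j ∈ posn L (fun k => m k - Chord.at w ⟨i, j, v, l⟩ k) :=
        h (mem_posn.mpr ⟨hj, hmj⟩)
      rw [mem_posn] at h1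
      exact absurd h1.2 (by rw [hz']; exact lt_irrefl _)
    have h2 := Finset.card_le_card hsub2
    omega
  · have hzi : 0 < m i - Chord.at w ⟨i, j, v, l⟩ i := lt_of_le_of_ne (hnn i) (Ne.symm hz)
    have hzj : 0 < m j - Chord.at w ⟨i, j, v, l⟩ j := lt_of_le_of_ne (hnn j) (Ne.symm hz')
    have : (removable P (total L w fun k => m k - Chord.at w ⟨i, j, v, l⟩ k)).card <
        (removable P (total L w m)).card := by
      apply Finset.card_lt_card
      refine ⟨hsub2, fun h => ?_⟩
      have h1 := h hv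
      rw [hT, mem_removable] at h1
      obtain ⟨_, δ, hδ, hδc⟩ := h1
      rw [hati] at hzi
      rw [hatj] at hzj
      have e1 : 0 < min δ (min ((m i - l * v (w i)) / v (w i)) ((m j - l * v (w j)) / v (w j))) := by
        have := div_pos hzi hvi'
        have := div_pos hzj hvj'
        positivity
      set η := min δ (min ((m i - l * v (w i)) / v (w i)) ((m j - l * v (w j)) / v (w j))) with hη
      have h2 : l + η ≤ l := by
        apply hmax
        · linarith
        · have h3 := inCone_smaller hlc hδ hδc e1.le (min_le_left _ _)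
          rw [add_smul, ← sub_sub]
          exact h3
        · have h3 : η ≤ (m i - l * v (w i)) / v (w i) :=
            (min_le_right _ _).trans (min_le_left _ _)
          rw [le_div_iff₀ hvi'] at h3
          linarith
        · have h3 : η ≤ (m j - l * v (w j)) / v (w j) :=
            (min_le_right _ _).trans (min_le_right _ _)
          rw [le_div_iff₀ hvj'] at h3
          linarith
      linarith
    have h2 := Finset.card_le_card hsub1
    omega

/-- two neighbouring positions of opposite classes -/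
lemma adjacent {Q : ℕ → Prop} {L : ℕ} {w : ℕ → Fin n} {A B : Finset (Fin n)}
    (hAB : ∀ k, k < L → Q k → w k ∈ A ∨ w k ∈ B) (d : ℕ) :
    ∀ i j : ℕ, i < j → j < L → j - i ≤ d → Q i → Q j →
      ((w i ∈ A ∧ w j ∈ B) ∨ (w i ∈ B ∧ w j ∈ A)) →
      ∃ i' j' : ℕ, i' < j' ∧ j' < L ∧ Q i' ∧ Q j' ∧
        ((w i' ∈ A ∧ w j' ∈ B) ∨ (w i' ∈ B ∧ w j' ∈ A)) ∧
        ∀ k, i' < k → k < j' → ¬ Q k := by
  induction d with
  | zero =>
    intro i j hij _ hd
    omega
  | succ d ih =>
    intro i j hij hj hd hQi hQj hopp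
    by_cases hk : ∃ k, i < k ∧ k < j ∧ Q k
    · obtain ⟨k, hik, hkj, hQk⟩ := hk
      rcases hAB k (hkj.trans hj) hQk with h | h <;> rcases hopp with ⟨h1, h2⟩ | ⟨h1, h2⟩
      · exact ih k j hkj hj (by omega) hQk hQj (Or.inl ⟨h, h2⟩)
      · exact ih i k hik (hkj.trans hj) (by omega) hQi hQk (Or.inr ⟨h1, h⟩)
      · exact ih i k hik (hkj.trans hj) (by omega) hQi hQk (Or.inl ⟨h1, h⟩)
      · exact ih k j hkj hj (by omega) hQk hQj (Or.inr ⟨h, h2⟩)
    · push Not at hk
      exact ⟨i, j, hij, hj, hQi, hQj, hopp, hk⟩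

/-- there is a possible chord -/
lemma exists_pair (hP : Cuttable P) {L : ℕ} {w : ℕ → Fin n} {m : ℕ → ℝ} (hm : ∀ k, 0 ≤ m k)
    (hc : InCone P (total L w m)) {k₀ : ℕ} (hk₀ : k₀ < L) (hk₀' : 0 < m k₀) :
    ∃ i j : ℕ, ∃ v ∈ removable P (total L w m), i ≤ j ∧ j < L ∧ letters v = {w i, w j} ∧
      (i < j → w i ≠ w j) ∧ 0 < m i ∧ 0 < m j ∧ ∀ k, i < k → k < j → ¬ 0 < m k := by
  have hX : ∀ k, k < L → 0 < m k →
      ∃ p ∈ removable P (total L w m), w k ∈ letters p := by
    intro k hk hk'
    exact exists_removable hc (ne_of_gt (lt_of_lt_of_le hk' (le_total hm hk)))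
  obtain ⟨p, hp, hpk⟩ := hX k₀ hk₀ hk₀'
  have hp0 : p ≠ 0 := by
    intro h
    rw [mem_letters, h] at hpk
    exact hpk rfl
  rcases hP _ (removable_isFace hc) ⟨p, hp, hp0⟩ with ⟨v, hv, a, ha⟩ | ⟨A, B, hA, hB, hAB, hcov, hpair⟩
  · have h1 : 0 < total L w m a := letters_removable hv (by rw [ha]; simp)
    obtain ⟨i, hi, hwi, hmi⟩ := exists_pos_of_total h1
    refine ⟨i, i, v, hv, le_rfl, hi, ?_, ?_, hmi, hmi, ?_⟩
    · rw [ha, hwi]; simp
    · intro h; exact absurd h (lt_irrefl _)
    · intro k h1 h2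
      exact absurd (h1.trans h2) (lt_irrefl _)
  · obtain ⟨a, ha⟩ := hA
    obtain ⟨b, hb⟩ := hB
    obtain ⟨u, hu, hul⟩ := hpair a ha b hb
    have h1 : 0 < total L w m a := letters_removable hu (by rw [hul]; simp)
    have h2 : 0 < total L w m b := letters_removable hu (by rw [hul]; simp)
    obtain ⟨i, hi, hwi, hmi⟩ := exists_pos_of_total h1
    obtain ⟨j, hj, hwj, hmj⟩ := exists_pos_of_total h2
    have hcl : ∀ k, k < L → 0 < m k → w k ∈ A ∨ w k ∈ B := by
      intro k hk hk'
      obtain ⟨p, hp, hpk⟩ := hX k hk hk'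
      have := hcov p hp hpk
      rwa [Finset.mem_union] at this
    have hij : i ≠ j := by
      intro h
      rw [Finset.disjoint_left] at hAB
      apply hAB ha
      rw [← hwi, h, hwj]
      exact hb
    have hex : ∃ i' j' : ℕ, i' < j' ∧ j' < L ∧ 0 < m i' ∧ 0 < m j' ∧
        ((w i' ∈ A ∧ w j' ∈ B) ∨ (w i' ∈ B ∧ w j' ∈ A)) ∧
        ∀ k, i' < k → k < j' → ¬ 0 < m k := by
      rcases lt_or_gt_of_ne hij with h | h
      · exact adjacent (Q := fun k => 0 < m k) hcl (j - i) i j h hj le_rfl hmi hmj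
          (Or.inl ⟨by rw [hwi]; exact ha, by rw [hwj]; exact hb⟩)
      · exact adjacent (Q := fun k => 0 < m k) hcl (i - j) j i h hi le_rfl hmj hmi
          (Or.inr ⟨by rw [hwj]; exact hb, by rw [hwi]; exact ha⟩)
    obtain ⟨i', j', hij', hj', hmi', hmj', hopp, hbet⟩ := hex
    rw [Finset.disjoint_left] at hAB
    rcases hopp with ⟨h3, h4⟩ | ⟨h3, h4⟩
    · obtain ⟨v, hv, hvl⟩ := hpair _ h3 _ h4
      exact ⟨i', j', v, hv, hij'.le, hj', hvl, fun _ h => hAB h3 (h ▸ h4), hmi', hmj', hbet⟩
    · obtain ⟨v, hv, hvl⟩ := hpair _ h4 _ h3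
      rw [Finset.pair_comm] at hvl
      exact ⟨i', j', v, hv, hij'.le, hj', hvl, fun _ h => hAB h4 (h ▸ h3), hmi', hmj', hbet⟩

lemma at_nonneg {L : ℕ} {w : ℕ → Fin n} {c : Chord n} (hc : c.Ok P L w) (k : ℕ) :
    0 ≤ c.at w k := by
  unfold Chord.at
  have := hc.2.2.2.1
  split_ifs <;> positivity

/-- end points of chords have positive amounts -/
lemma pos_of_mem {L : ℕ} {w : ℕ → Fin n} {m : ℕ → ℝ} {cs : List (Chord n)}
    (h : Realises P L w m cs) {c : Chord n} (hc : c ∈ cs) : 0 < m c.i ∧ 0 < m c.j := by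
  obtain ⟨h1, _, h3⟩ := h
  have hok := h1 c hc
  obtain ⟨hij, hj, hP, hl, hlet, hne⟩ := hok
  have hi : c.i < L := lt_of_le_of_lt hij hj
  have key : ∀ k, c.at w k ≤ (cs.map fun c => c.at w k).sum := by
    intro k
    apply List.single_le_sum
    · intro x hx
      rw [List.mem_map] at hx
      obtain ⟨d, hd, rfl⟩ := hx
      exact at_nonneg (h1 d hd) k
    · exact List.mem_map.mpr ⟨c, hc, rfl⟩
  have hvi : c.v (w c.i) ≠ 0 := by rw [← mem_letters, hlet]; simp
  have hvj : c.v (w c.j) ≠ 0 := by rw [← mem_letters, hlet]; simp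
  constructor
  · rw [← h3 _ hi]
    refine lt_of_lt_of_le ?_ (key c.i)
    unfold Chord.at
    rw [if_pos (Or.inl rfl)]
    positivity
  · rw [← h3 _ hj]
    refine lt_of_lt_of_le ?_ (key c.j)
    unfold Chord.at
    rw [if_pos (Or.inr rfl)]
    positivity

lemma main (hP : Cuttable P) (L : ℕ) (w : ℕ → Fin n) (N : ℕ) :
    ∀ m : ℕ → ℝ, (∀ k, 0 ≤ m k) → InCone P (total L w m) →
      (posn L m).card + (removable P (total L w m)).card ≤ N →
      ∃ cs : List (Chord n), Realises P L w m cs := by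
  induction N with
  | zero =>
    intro m hm hc hN
    refine ⟨[], by simp, by intro c hc; simp at hc, ?_⟩
    intro k hk
    have h1 : (posn L m).card = 0 := by omega
    rw [Finset.card_eq_zero] at h1
    have h2 : k ∉ posn L m := by rw [h1]; simp
    rw [mem_posn] at h2
    simp only [List.map_nil, List.sum_nil]
    by_contra h3
    exact h2 ⟨hk, lt_of_le_of_ne (hm k) h3⟩
  | succ N ih =>
    intro m hm hc hN
    by_cases hex : ∃ k, k < L ∧ 0 < m k
    · obtain ⟨k₀, hk₀, hk₀'⟩ := hex
      obtain ⟨i, j, v, hv, hij, hj, hl, hne, hmi, hmj, hbet⟩ := exists_pair hP hm hc hk₀ hk₀'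
      obtain ⟨l, hl0, hm', hc', hlt⟩ := step hm hc hij hj hv hl hne hmi hmj
      obtain ⟨cs, hcs⟩ := ih _ hm' hc' (by omega)
      have hle : ∀ k, m k - Chord.at w ⟨i, j, v, l⟩ k ≤ m k := by
        intro k
        have : 0 ≤ Chord.at w ⟨i, j, v, l⟩ k := by
          unfold Chord.at
          split_ifs <;> positivity
        linarith
      have hpos : ∀ c ∈ cs, 0 < m c.i ∧ 0 < m c.j := by
        intro c hc
        obtain ⟨h1, h2⟩ := pos_of_mem hcs hc
        exact ⟨h1.trans_le (hle _), h2.trans_le (hle _)⟩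
      refine ⟨⟨i, j, v, l⟩ :: cs, ?_, ?_, ?_⟩
      · intro c hc
        rw [List.mem_cons] at hc
        rcases hc with rfl | hc
        · exact ⟨hij, hj, (mem_removable.mp hv).1, hl0, hl, hne⟩
        · exact hcs.1 c hc
      · intro c hc d hd hcross
        rw [List.mem_cons] at hc hd
        rcases hc with rfl | hc <;> rcases hd with rfl | hd
        · exact absurd hcross.1 (lt_irrefl _)
        · exact hbet d.i hcross.1 hcross.2.1 (hpos d hd).1
        · exact hbet c.j hcross.2.1 hcross.2.2 (hpos c hc).2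
        · exact hcs.2.1 c hc d hd hcross
      · intro k hk
        rw [List.map_cons, List.sum_cons, hcs.2.2 k hk]
        ring
    · push Not at hex
      refine ⟨[], by simp, by intro c hc; simp at hc, ?_⟩
      intro k hk
      simp only [List.map_nil, List.sum_nil]
      exact (le_antisymm (hex k hk) (hm k)).symm

end Chordsx

open Chordsx in
/-- If `P` is cuttable, amounts at the positions of a word whose total is in the cone of `P` are
realised by a system of noncrossing chords. -/
theorem exists_chords (hP : Cuttable P) (L : ℕ) (w : ℕ → Fin n) (m : ℕ → ℝ)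
    (hm : ∀ k, 0 ≤ m k) (hc : InCone P (total L w m)) :
    ∃ cs : List (Chord n), Realises P L w m cs :=
  main hP L w _ m hm hc le_rfl

end Pool.Agent.Helper22.CS
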