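import Pool.Agent.Helper22.CS.Base

/-! Module FACE of MP_434a84_lc, theorem D. -/

namespace Pool.Agent.Helper22.CS

variable {n : ℕ} {P : Finset (Fin n → ℕ)} {X Y : Fin n → ℝ}

theorem InCone.add (hX : InCone P X) (hY : InCone P Y) : InCone P (X + Y) := by
  obtain ⟨t, ht, rfl⟩ := hX
  obtain ⟨s, hs, rfl⟩ := hY
  refine ⟨fun p => t p + s p, fun p hp => add_nonneg (ht p hp) (hs p hp), ?_⟩
  rw [← Finset.sum_add_distrib]
  exact Finset.sum_congr rfl fun p _ => (add_smul _ _ _).symm

theorem InCone.smul {r : ℝ} (hr : 0 ≤ r) (hX : InCone P X) : InCone P (r • X) := by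
  obtain ⟨t, ht, rfl⟩ := hX
  refine ⟨fun p => r * t p, fun p hp => mul_nonneg hr (ht p hp), ?_⟩
  rw [Finset.smul_sum]
  exact Finset.sum_congr rfl fun p _ => smul_smul _ _ _

theorem inCone_of_mem {p : Fin n → ℕ} (hp : p ∈ P) : InCone P (toR p) := by
  classical
  refine ⟨fun q => if q = p then 1 else 0, fun q _ => by
    show (0 : ℝ) ≤ if q = p then 1 else 0
    split_ifs <;> norm_num, ?_⟩
  rw [Finset.sum_eq_single p]
  · simp
  · intro q _ hq
    simp [hq]
  · intro h
    exact absurd hp h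

theorem InCone.nonneg (hX : InCone P X) (a : Fin n) : 0 ≤ X a := by
  obtain ⟨t, ht, rfl⟩ := hX
  rw [Finset.sum_apply]
  refine Finset.sum_nonneg fun p hp => ?_
  rw [Pi.smul_apply, smul_eq_mul]
  exact mul_nonneg (ht p hp) (Nat.cast_nonneg _)

theorem mem_removable {p : Fin n → ℕ} : p ∈ removable P X ↔
    p ∈ P ∧ ∃ ε : ℝ, 0 < ε ∧ InCone P (X - ε • toR p) := by
  simp [removable]

/-- convexity -/
theorem InCone.conv {Z : Fin n → ℝ} (hX : InCone P X) (hZ : InCone P (X - Z)) {l : ℝ}
    (h0 : 0 ≤ l) (h1 : l ≤ 1) : InCone P (X - l • Z) := by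
  have h : X - l • Z = (1 - l) • X + l • (X - Z) := by
    rw [smul_sub, sub_smul, one_smul]
    abel
  rw [h]
  exact (hX.smul (sub_nonneg.2 h1)).add (hZ.smul h0)

/-- finite sums of elements of the cone with nonnegative coefficients -/
theorem inCone_sum (T : Finset (Fin n → ℕ)) (hT : T ⊆ P) (t : (Fin n → ℕ) → ℝ) (ht : ∀ p, 0 ≤ t p) :
    InCone P (∑ p ∈ T, t p • toR p) := by
  classical
  induction T using Finset.induction_on with
  | empty => exact ⟨fun _ => 0, fun _ _ => le_rfl, by simp⟩
  | insert q T hq ih =>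
    rw [Finset.sum_insert hq]
    exact ((inCone_of_mem (hT (Finset.mem_insert_self q T))).smul (ht q)).add
      (ih fun x hx => hT (Finset.mem_insert_of_mem hx))

theorem removable_sum (hX : InCone P X) (T : Finset (Fin n → ℕ)) (hT : T ⊆ removable P X)
    (t : (Fin n → ℕ) → ℝ) (ht : ∀ p, 0 ≤ t p) :
    ∃ η : ℝ, 0 < η ∧ InCone P (X - η • ∑ p ∈ T, t p • toR p) := by
  classical
  induction T using Finset.induction_on with
  | empty => exact ⟨1, one_pos, by simpa using hX⟩
  | insert q T hq ih =>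
    obtain ⟨η, hη, h1⟩ := ih fun x hx => hT (Finset.mem_insert_of_mem hx)
    obtain ⟨-, ε, hε, h2⟩ := mem_removable.1 (hT (Finset.mem_insert_self q T))
    have htq := ht q
    have hd : 0 < 2 * (t q + 1) := by linarith
    refine ⟨min (η / 2) (ε / (2 * (t q + 1))), lt_min (by linarith) (div_pos hε hd), ?_⟩
    set m := min (η / 2) (ε / (2 * (t q + 1))) with hm
    have hm0 : 0 < m := lt_min (by linarith) (div_pos hε hd)
    have hm1 : m ≤ η / 2 := min_le_left _ _
    have hm2 : m * (2 * (t q + 1)) ≤ ε := by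
      rw [← le_div_iff₀ hd]
      exact min_le_right _ _
    have hA : InCone P (X - (2 * m) • ∑ p ∈ T, t p • toR p) := by
      have h3 := hX.conv (Z := η • ∑ p ∈ T, t p • toR p) h1 (l := 2 * m / η) (by positivity)
        (by rw [div_le_one hη]; linarith)
      rwa [smul_smul, div_mul_cancel₀ _ hη.ne'] at h3
    have hB : InCone P (X - (2 * m * t q) • toR q) := by
      have h3 := hX.conv (Z := ε • toR q) h2 (l := 2 * m * t q / ε) (by positivity)
        (by rw [div_le_one hε]; nlinarith)
      rwa [smul_smul, div_mul_cancel₀ _ hε.ne'] at h3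
    have h : X - m • ∑ p ∈ insert q T, t p • toR p =
        (1 / 2 : ℝ) • (X - (2 * m) • ∑ p ∈ T, t p • toR p) + (1 / 2 : ℝ) • (X - (2 * m * t q) • toR q) := by
      rw [Finset.sum_insert hq]
      funext a
      simp only [Pi.sub_apply, Pi.add_apply, Pi.smul_apply, smul_eq_mul]
      ring
    rw [h]
    exact (hA.smul (by norm_num)).add (hB.smul (by norm_num))

/-- the removable vectors form a face -/
theorem removable_isFace (hX : InCone P X) : IsFace P (removable P X) := by
  classical
  refine ⟨fun p hp => (mem_removable.1 hp).1, ?_⟩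
  intro s t hst p hp hpS
  by_contra hs
  apply hpS
  have hs0 : 0 < s p := Nat.pos_of_ne_zero hs
  obtain ⟨η, hη, h1⟩ := removable_sum hX (removable P X) (fun _ h => h) (fun q => (t q : ℝ))
    (fun q => Nat.cast_nonneg _)
  refine mem_removable.2 ⟨hp, η * s p, by positivity, ?_⟩
  have hR : ∑ q ∈ P, (s q : ℝ) • toR q = ∑ q ∈ removable P X, (t q : ℝ) • toR q := by
    funext a
    have h2 := congrFun hst a
    simp only [Finset.sum_apply, Pi.smul_apply, smul_eq_mul] at h2
    simp only [Finset.sum_apply, Pi.smul_apply, smul_eq_mul, toR]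
    exact_mod_cast h2
  have h3 : ∑ q ∈ P, (s q : ℝ) • toR q = (s p : ℝ) • toR p + ∑ q ∈ P.erase p, (s q : ℝ) • toR q :=
    (Finset.add_sum_erase P (fun q => (s q : ℝ) • toR q) hp).symm
  have h4 : X - (η * s p) • toR p = (X - η • ∑ q ∈ removable P X, (t q : ℝ) • toR q) +
      η • ∑ q ∈ P.erase p, (s q : ℝ) • toR q := by
    rw [← hR, h3, smul_add, smul_smul]
    abel
  rw [h4]
  exact h1.add ((inCone_sum (P.erase p) (Finset.erase_subset _ _) (fun q => (s q : ℝ))
    (fun q => Nat.cast_nonneg _)).smul hη.le)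

/-- every letter of a removable vector has positive amount -/
theorem letters_removable {p : Fin n → ℕ} (hp : p ∈ removable P X) {a : Fin n}
    (ha : a ∈ letters p) : 0 < X a := by
  obtain ⟨-, ε, hε, h⟩ := mem_removable.1 hp
  have h1 := h.nonneg a
  simp only [Pi.sub_apply, Pi.smul_apply, smul_eq_mul, toR] at h1
  have h2 : 0 < p a := Nat.pos_of_ne_zero (mem_letters.1 ha)
  have h3 : 0 < ε * (p a : ℝ) := by positivity
  linarith

/-- every letter with nonzero amount occurs in a removable vector -/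
theorem exists_removable (hX : InCone P X) {a : Fin n} (ha : X a ≠ 0) :
    ∃ p ∈ removable P X, a ∈ letters p := by
  classical
  obtain ⟨t, ht, rfl⟩ := hX
  rw [Finset.sum_apply] at ha
  obtain ⟨p, hp, hne⟩ := Finset.exists_ne_zero_of_sum_ne_zero ha
  rw [Pi.smul_apply, smul_eq_mul] at hne
  have htp : t p ≠ 0 := left_ne_zero_of_mul hne
  have hpa : (p a : ℝ) ≠ 0 := right_ne_zero_of_mul hne
  refine ⟨p, mem_removable.2 ⟨hp, t p, lt_of_le_of_ne (ht p hp) (Ne.symm htp), ?_⟩,
    mem_letters.2 (by exact_mod_cast hpa)⟩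
  refine ⟨fun q => if q = p then 0 else t q, fun q hq => ?_, ?_⟩
  · show (0 : ℝ) ≤ if q = p then 0 else t q
    split_ifs
    · exact le_rfl
    · exact ht q hq
  · rw [← Finset.add_sum_erase P (fun q => t q • toR q) hp, add_sub_cancel_left,
      ← Finset.add_sum_erase P (fun q => (if q = p then (0 : ℝ) else t q) • toR q) hp]
    simp only [if_true, zero_smul, zero_add]
    refine Finset.sum_congr rfl fun q hq => ?_
    rw [if_neg (Finset.ne_of_mem_erase hq)]

theorem removable_mono (hY : InCone P Y) : removable P X ⊆ removable P (X + Y) := by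
  intro p hp
  obtain ⟨hpP, ε, hε, h⟩ := mem_removable.1 hp
  refine mem_removable.2 ⟨hpP, ε, hε, ?_⟩
  have h1 : X + Y - ε • toR p = (X - ε • toR p) + Y := by abel
  rw [h1]
  exact h.add hY

end Pool.Agent.Helper22.CS
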