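import Mathlib

/-! Module WALK of MP_434a84_lc, theorem D. -/

namespace Pool.Agent.Helper22.CS

/-- In a graph on a finite nonempty set `B` which has an edge out of every proper nonempty subset
there is a walk through all vertices. -/
theorem exists_walk {α : Type} [DecidableEq α] (B : Finset α) (hB : B.Nonempty)
    (N : α → α → Prop) (hs : ∀ a b, N a b → N b a)
    (hc : ∀ A ⊆ B, A.Nonempty → A ≠ B → ∃ a ∈ A, ∃ b ∈ B, b ∉ A ∧ N a b) :
    ∃ l : List α, (∀ x ∈ l, x ∈ B) ∧ (∀ x ∈ B, x ∈ l) ∧ l.IsChain N := by
  have key : ∀ n : ℕ, ∀ l : List α, l ≠ [] → (∀ x ∈ l, x ∈ B) → l.IsChain N →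
      (B \ l.toFinset).card ≤ n →
      ∃ l : List α, (∀ x ∈ l, x ∈ B) ∧ (∀ x ∈ B, x ∈ l) ∧ l.IsChain N := by
    intro n
    induction n with
    | zero =>
      intro l hl hB1 hch hcard
      refine ⟨l, hB1, ?_, hch⟩
      intro x hx
      have h0 : B \ l.toFinset = ∅ := Finset.card_eq_zero.1 (Nat.le_zero.1 hcard)
      by_contra hxl
      have : x ∈ B \ l.toFinset := Finset.mem_sdiff.2 ⟨hx, by simpa using hxl⟩
      rw [h0] at this
      exact absurd this (Finset.notMem_empty x)
    | succ n ih =>
      intro l hl hB1 hch hcard
      by_cases hA : l.toFinset = B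
      · refine ⟨l, hB1, ?_, hch⟩
        intro x hx
        rw [← hA] at hx
        simpa using hx
      · obtain ⟨x0, hx0⟩ := List.exists_mem_of_ne_nil l hl
        obtain ⟨a, ha, b, hb, hba, hN⟩ := hc l.toFinset
          (fun x hx => hB1 x (by simpa using hx)) ⟨x0, by simpa using hx0⟩ hA
        have ha' : a ∈ l := by simpa using ha
        have hbl : b ∉ l := by simpa using hba
        obtain ⟨l1, l2, rfl⟩ := List.append_of_mem ha'
        refine ih (l1 ++ a :: b :: a :: l2) (by simp) ?_ ?_ ?_
        · intro x hx
          simp only [List.mem_append, List.mem_cons] at hx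
          rcases hx with h | rfl | rfl | rfl | h
          · exact hB1 x (by simp [h])
          · exact hB1 x (by simp)
          · exact hb
          · exact hB1 x (by simp)
          · exact hB1 x (by simp [h])
        · rw [List.isChain_split] at hch ⊢
          refine ⟨hch.1, ?_⟩
          rw [List.isChain_cons_cons, List.isChain_cons_cons]
          exact ⟨hN, hs _ _ hN, hch.2⟩
        · have hsub : B \ (l1 ++ a :: b :: a :: l2).toFinset ⊂ B \ (l1 ++ a :: l2).toFinset := by
            rw [Finset.ssubset_iff_of_subset]
            · refine ⟨b, ?_, ?_⟩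
              · exact Finset.mem_sdiff.2 ⟨hb, fun h => hbl (List.mem_toFinset.1 h)⟩
              · simp
            · intro x hx
              simp only [Finset.mem_sdiff, List.mem_toFinset, List.mem_append,
                List.mem_cons] at hx ⊢
              refine ⟨hx.1, ?_⟩
              intro h
              apply hx.2
              rcases h with h | h | h
              · exact Or.inl h
              · exact Or.inr (Or.inl h)
              · exact Or.inr (Or.inr (Or.inr (Or.inr h)))
          have := Finset.card_lt_card hsub
          omega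
  obtain ⟨b0, hb0⟩ := hB
  exact key _ [b0] (by simp) (by simpa using hb0) (List.isChain_singleton b0) le_rfl

end Pool.Agent.Helper22.CS
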