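import Pool.Agent.Helper22.CS.Base
import Pool.Agent.Helper22.CS.Pump
import Pool.Agent.Helper22.CS.Walk
import Pool.Agent.Helper22.CS.Blocks
import Pool.Agent.Helper22.CS.Dickson

/-! Module NEC of MP_434a84_lc, theorem D: the criterion is necessary. -/

namespace Pool.Agent.Helper22.CS

variable {n : ℕ}

namespace Necx

lemma comb_lin (S : Finset (Fin n → ℕ)) (x y : ℕ) (s t : (Fin n → ℕ) → ℕ) :
    ∑ p ∈ S, (x * s p + y * t p) • p = x • ∑ p ∈ S, s p • p + y • ∑ p ∈ S, t p • p := by
  rw [Finset.smul_sum, Finset.smul_sum, ← Finset.sum_add_distrib]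
  refine Finset.sum_congr rfl fun p _ => ?_
  rw [add_smul, mul_smul, mul_smul]

/-- `f'` is below `f` -/
def Le (S P : Finset (Fin n → ℕ)) (f' f : Fin n → ℕ) : Prop :=
  ∃ d : ℕ, 1 ≤ d ∧ ∃ s c : (Fin n → ℕ) → ℕ,
    d • f + ∑ p ∈ S, s p • p = d • f' + ∑ p ∈ P, c p • p

lemma Le.refl (S P : Finset (Fin n → ℕ)) (f : Fin n → ℕ) : Le S P f f :=
  ⟨1, le_rfl, fun _ => 0, fun _ => 0, by simp⟩

lemma Le.trans {S P : Finset (Fin n → ℕ)} {f f' f'' : Fin n → ℕ} (h1 : Le S P f'' f')
    (h2 : Le S P f' f) : Le S P f'' f := by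
  obtain ⟨d2, hd2, s2, c2, h2'⟩ := h1
  obtain ⟨d1, hd1, s1, c1, h1'⟩ := h2
  refine ⟨d1 * d2, Nat.mul_pos hd1 hd2, fun p => d2 * s1 p + d1 * s2 p,
    fun p => d2 * c1 p + d1 * c2 p, ?_⟩
  rw [comb_lin, comb_lin]
  generalize ∑ p ∈ S, s1 p • p = A1 at *
  generalize ∑ p ∈ S, s2 p • p = A2 at *
  generalize ∑ p ∈ P, c1 p • p = C1 at *
  generalize ∑ p ∈ P, c2 p • p = C2 at *
  funext a
  have e1 := congrFun h1' a
  have e2 := congrFun h2' a
  simp only [Pi.add_apply, Pi.smul_apply, smul_eq_mul] at e1 e2 ⊢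
  zify at e1 e2 ⊢
  linear_combination (d2 : ℤ) * e1 + (d1 : ℤ) * e2

/-- a minimal element of `F` -/
lemma exists_min (S P F : Finset (Fin n → ℕ)) (hF : F.Nonempty) :
    ∃ f ∈ F, ∀ f' ∈ F, Le S P f' f → Le S P f f' := by
  classical
  obtain ⟨f, hf, hmin⟩ := Finset.exists_min_image F
    (fun f => (F.filter fun g => Le S P g f).card) hF
  refine ⟨f, hf, fun f' hf' h => ?_⟩
  have hsub : (F.filter fun g => Le S P g f') ⊆ F.filter fun g => Le S P g f := by
    intro g hg
    rw [Finset.mem_filter] at hg ⊢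
    exact ⟨hg.1, hg.2.trans h⟩
  have heq := Finset.eq_of_subset_of_card_le hsub (hmin f' hf')
  have hmem : f ∈ F.filter fun g => Le S P g f := by
    rw [Finset.mem_filter]
    exact ⟨hf, Le.refl S P f⟩
  rw [← heq, Finset.mem_filter] at hmem
  exact hmem.2

lemma parikh_replicate (k : ℕ) (v : List (Fin n)) :
    parikh (List.replicate k v).flatten = k • parikh v := by
  induction k with
  | zero => funext a; simp [parikh]
  | succ k ih =>
    rw [List.replicate_succ, List.flatten_cons, parikh_append, ih, add_smul, one_smul, add_comm]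

/-- the word for the pumping argument -/
lemma exists_word (B : Finset (Fin n)) (l : List (Fin n))
    (hlB : ∀ x ∈ l, x ∈ B) (hBl : ∀ x ∈ B, x ∈ l) (K : ℕ)
    (X : Fin n → ℕ) (hX : ∀ b ∈ l, K * l.count b ≤ X b) :
    ∃ bs : List (Fin n × ℕ), ∃ g : List (Fin n), bs.map Prod.fst = l ∧ (∀ c ∈ bs, K ≤ c.2) ∧
      (∀ c ∈ g, c ∉ B) ∧ parikh (bword bs ++ g) = X := by
  classical
  obtain ⟨bs, h1, h2, h3, h4⟩ := exists_blocks K l X hX
  obtain ⟨bs', g1, g2, g3, g4⟩ := exists_blocks 0 ((Finset.univ \ B).toList) X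
    (by intro b _; simp)
  have hmem : ∀ a, a ∈ (Finset.univ \ B).toList ↔ a ∉ B := by
    intro a; simp
  refine ⟨bs, bword bs', h1, h2, ?_, ?_⟩
  · intro c hc hcB
    have := g4 c (by rw [hmem]; simpa using hcB)
    rw [List.count_eq_zero] at this
    exact this hc
  · funext a
    rw [parikh_append]
    simp only [Pi.add_apply]
    unfold parikh
    by_cases ha : a ∈ B
    · rw [h3 a (hBl a ha), g4 a (by rw [hmem]; simpa using ha), add_zero]
    · rw [h4 a (fun h => ha (hlB a h)), g3 a (by rw [hmem]; exact ha), zero_add]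

end Necx

open Necx in
theorem cuttable_of_isContextFree (F P : Finset (Fin n → ℕ)) (hF : F.Nonempty)
    (h : (comLang (periodSet F P)).IsContextFree) : Cuttable P := by
  classical
  intro S hS hne
  by_contra hspl
  unfold Splits at hspl
  push Not at hspl
  obtain ⟨hs1, hs2⟩ := hspl
  obtain ⟨hSP, hface⟩ := hS
  set B : Finset (Fin n) := S.biUnion letters with hB
  have hletB : ∀ p ∈ S, letters p ⊆ B := fun p hp => Finset.subset_biUnion_of_mem letters hp
  have hBne : B.Nonempty := by
    obtain ⟨p, hp, hp0⟩ := hne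
    obtain ⟨a, ha⟩ := Function.ne_iff.mp hp0
    exact ⟨a, hletB p hp (mem_letters.mpr ha)⟩
  set N : Fin n → Fin n → Prop := fun a b => ¬ ∃ p ∈ S, letters p = {a, b} with hN
  obtain ⟨l, hlB, hBl, hch⟩ := exists_walk B hBne N
    (by
      intro a b hab
      rw [hN] at hab ⊢
      rintro ⟨p, hp, hpl⟩
      exact hab ⟨p, hp, by rw [hpl, Finset.pair_comm]⟩)
    (by
      intro A hA hAne hAB
      by_contra hcon
      push Not at hcon
      have hBA : (B \ A).Nonempty := by
        rw [Finset.sdiff_nonempty]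
        intro h1
        exact hAB (Finset.Subset.antisymm hA h1)
      obtain ⟨a, ha, b, hb, hab⟩ := hs2 A (B \ A) hAne hBA Finset.disjoint_sdiff
        (by
          intro p hp
          rw [Finset.union_sdiff_of_subset hA]
          exact hletB p hp)
      rw [Finset.mem_sdiff] at hb
      have h1 := hcon a ha b hb.1 hb.2
      rw [hN] at h1
      simp only [not_not] at h1
      obtain ⟨p, hp, hpl⟩ := h1
      exact hab p hp hpl)
  -- the minimal constant
  obtain ⟨f, hf, hmin⟩ := exists_min S P F hF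
  obtain ⟨K, hpump⟩ := pumping h
  set σ : Fin n → ℕ := ∑ p ∈ S, p with hσ
  set M : ℕ := K * l.length with hM
  have hσB : ∀ b ∈ B, 1 ≤ σ b := by
    intro b hb
    rw [hB, Finset.mem_biUnion] at hb
    obtain ⟨p, hp, hpb⟩ := hb
    rw [hσ, Finset.sum_apply]
    have h1 : p b ≤ ∑ c ∈ S, c b :=
      Finset.single_le_sum (f := fun c : Fin n → ℕ => c b) (fun _ _ => Nat.zero_le _) hp
    have h2 := mem_letters.mp hpb
    omega
  obtain ⟨bs, g, hbs, hbK, hgB, hpar⟩ := exists_word B l hlB hBl K (f + M • σ) (by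
    intro b hb
    have h1 := hσB b (hlB b hb)
    have h2 : l.count b ≤ l.length := List.count_le_length
    simp only [Pi.add_apply, Pi.smul_apply, smul_eq_mul]
    have h3 : K * l.count b ≤ M := Nat.mul_le_mul_left K h2
    have h4 : M * 1 ≤ M * σ b := Nat.mul_le_mul_left M h1
    omega)
  have hlne : l ≠ [] := by
    rintro rfl
    obtain ⟨b, hb⟩ := hBne
    exact absurd (hBl b hb) (by simp)
  have hlen : K ≤ (bword bs ++ g).length := by
    rcases bs with _ | ⟨c, bs⟩
    · exact absurd (show l = [] from hbs.symm) hlne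
    · have h1 := hbK c (by simp)
      unfold bword
      simp only [List.flatMap_cons, List.length_append, List.length_replicate]
      omega
  have hmem : bword bs ++ g ∈ comLang (periodSet F P) := by
    rw [mem_comLang, hpar]
    refine ⟨f, hf, fun p => if p ∈ S then M else 0, ?_⟩
    congr 1
    rw [hσ, Finset.smul_sum]
    have h1 : ∑ p ∈ P, (if p ∈ S then M else 0) • p = ∑ p ∈ P, if p ∈ S then M • p else 0 := by
      refine Finset.sum_congr rfl fun p _ => ?_
      split_ifs <;> simp
    rw [h1, ← Finset.sum_filter, Finset.filter_mem_eq_inter, Finset.inter_eq_right.mpr hSP]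
  obtain ⟨u, v, x, y, z, hw, hvy, hvxy, hall⟩ := hpump _ hmem hlen
  set δ : Fin n → ℕ := parikh v + parikh y with hδ
  set b0 : Fin n → ℕ := parikh u + parikh x + parikh z with hb0
  have hx : ∀ k : ℕ, b0 + k • δ ∈ periodSet F P := by
    intro k
    have h1 := hall k
    rw [mem_comLang] at h1
    simp only [parikh_append, parikh_replicate] at h1
    have h2 : b0 + k • δ = parikh u + k • parikh v + parikh x + k • parikh y + parikh z := by
      rw [hb0, hδ, smul_add]; abel
    rw [h2]; exact h1
  have hbase : f + M • σ = b0 + δ := by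
    rw [← hpar, hw]
    simp only [parikh_append]
    rw [hb0, hδ]; abel
  obtain ⟨f', hf', q', hq'⟩ := hx 0
  rw [zero_smul, add_zero] at hq'
  obtain ⟨i, j, hij, τ, hτ⟩ := exists_diff F P (fun k => b0 + k • δ) hx
  obtain ⟨d, hd⟩ : ∃ d, j = i + d := ⟨j - i, by omega⟩
  have hd1 : 1 ≤ d := by omega
  have hdδ : d • δ = ∑ p ∈ P, τ p • p := by
    rw [hd] at hτ
    simp only [add_smul] at hτ
    rw [← add_assoc] at hτ
    exact add_left_cancel hτ
  -- `f'` is below `f`
  have hle : Le S P f' f := by
    refine ⟨d, hd1, fun _ => d * M, fun p => d * q' p + 1 * τ p, ?_⟩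
    rw [comb_lin, one_smul, ← hdδ, ← Finset.smul_sum, ← hσ]
    generalize hQ : ∑ p ∈ P, q' p • p = Q at *
    funext a
    have e1 := congrFun hbase a
    have e2 := congrFun hq' a
    simp only [Pi.add_apply, Pi.smul_apply, smul_eq_mul] at e1 e2 ⊢
    zify at e1 e2 ⊢
    linear_combination (d : ℤ) * e1 + (d : ℤ) * e2
  obtain ⟨e, he1, s', c', hsc⟩ := hmin f' hf' hle
  -- the face
  have hfaceeq : ∑ p ∈ P, ((e * d) * q' p + 1 * (e * τ p + d * c' p)) • p
      = ∑ p ∈ S, ((e * d * M) * 1 + d * s' p) • p := by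
    rw [comb_lin P, comb_lin P, comb_lin S, ← hdδ]
    have h1 : ∑ p ∈ S, (1 : ℕ) • p = σ := by simp [hσ]
    rw [h1]
    generalize ∑ p ∈ P, q' p • p = Q at *
    generalize ∑ p ∈ P, c' p • p = C at *
    generalize ∑ p ∈ S, s' p • p = S' at *
    funext a
    have e1 := congrFun hbase a
    have e2 := congrFun hq' a
    have e3 := congrFun hsc a
    simp only [Pi.add_apply, Pi.smul_apply, smul_eq_mul] at e1 e2 e3 ⊢
    zify at e1 e2 e3 ⊢
    linear_combination -(e * d : ℤ) * e1 - (e * d : ℤ) * e2 - (d : ℤ) * e3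
  have hτ0 : ∀ p ∈ P, p ∉ S → τ p = 0 := by
    intro p hp hpS
    have h1 := hface _ _ hfaceeq p hp hpS
    have h2 : e * τ p = 0 := by omega
    rcases Nat.mul_eq_zero.mp h2 with h3 | h3
    · omega
    · exact h3
  -- a vector of `S` in the support of the pumped part
  have hδne : ∃ a, δ a ≠ 0 := by
    by_contra hcon
    push Not at hcon
    have h1 : v = [] := by
      rw [List.eq_nil_iff_forall_not_mem]
      intro a ha
      have h2 := hcon a
      rw [hδ] at h2
      simp only [Pi.add_apply, parikh] at h2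
      have h3 := List.count_pos_iff.mpr ha
      omega
    have h1' : y = [] := by
      rw [List.eq_nil_iff_forall_not_mem]
      intro a ha
      have h2 := hcon a
      rw [hδ] at h2
      simp only [Pi.add_apply, parikh] at h2
      have h3 := List.count_pos_iff.mpr ha
      omega
    rw [h1, h1'] at hvy
    simp at hvy
  obtain ⟨a₀, ha₀⟩ := hδne
  have hex : ∃ p ∈ S, τ p ≠ 0 ∧ p a₀ ≠ 0 := by
    have h1 := congrFun hdδ a₀
    simp only [Pi.smul_apply, smul_eq_mul, Finset.sum_apply] at h1
    have h2 : ∑ p ∈ P, τ p * p a₀ ≠ 0 := by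
      rw [← h1]
      exact Nat.mul_ne_zero (by omega) ha₀
    obtain ⟨p, hp, hp'⟩ := Finset.exists_ne_zero_of_sum_ne_zero h2
    have h3 : τ p ≠ 0 := fun h => hp' (by rw [h, zero_mul])
    have h4 : p a₀ ≠ 0 := fun h => hp' (by rw [h, mul_zero])
    exact ⟨p, by by_contra h5; exact h3 (hτ0 p hp h5), h3, h4⟩
  obtain ⟨p, hpS, hpτ, hpa⟩ := hex
  have hsupp : ∀ c ∈ letters p, c ∈ v ++ x ++ y := by
    intro c hc
    rw [mem_letters] at hc
    have h1 := congrFun hdδ c
    simp only [Pi.smul_apply, smul_eq_mul, Finset.sum_apply] at h1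
    have h2 : τ p * p c ≤ ∑ p ∈ P, τ p * p c :=
      Finset.single_le_sum (f := fun p : Fin n → ℕ => τ p * p c) (fun _ _ => Nat.zero_le _)
        (hSP hpS)
    have h3 : 0 < τ p * p c := Nat.mul_pos (Nat.pos_of_ne_zero hpτ) (Nat.pos_of_ne_zero hc)
    have h4 : δ c ≠ 0 := by
      intro h5
      rw [h5, mul_zero] at h1
      omega
    rw [hδ] at h4
    simp only [Pi.add_apply, parikh] at h4
    have h5 : 0 < v.count c ∨ 0 < y.count c := by omega
    rcases h5 with h5 | h5
    · have := List.count_pos_iff.mp h5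
      simp [this]
    · have := List.count_pos_iff.mp h5
      simp [this]
  have ha0p : a₀ ∈ letters p := mem_letters.mpr hpa
  have hwin := window (N := N) K bs (by rw [hbs]; exact hch) hbK g u (v ++ x ++ y) z
    (by rw [hw]; simp only [List.append_assoc])
    (by simp only [List.length_append]; omega)
  rcases hwin with hwin | ⟨a, ha, b, hb, hab, hwin⟩
  · exact hgB a₀ (hwin a₀ (hsupp a₀ ha0p)) (hletB p hpS ha0p)
  · have hsub : letters p ⊆ {a, b} := by
      intro c hc
      rcases hwin c (hsupp c hc) with h1 | h1 | h1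
      · simp [h1]
      · simp [h1]
      · exact absurd (hletB p hpS hc) (hgB c h1)
    have hcase : letters p = {a} ∨ letters p = {b} ∨ letters p = {a, b} := by
      by_cases hA : a ∈ letters p <;> by_cases hB' : b ∈ letters p
      · refine Or.inr (Or.inr (Finset.Subset.antisymm hsub ?_))
        intro c hc
        rw [Finset.mem_insert, Finset.mem_singleton] at hc
        rcases hc with rfl | rfl
        · exact hA
        · exact hB'
      · refine Or.inl (Finset.Subset.antisymm ?_ (by simpa using hA))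
        intro c hc
        have h1 := hsub hc
        rw [Finset.mem_insert, Finset.mem_singleton] at h1
        rcases h1 with rfl | rfl
        · simp
        · exact absurd hc hB'
      · refine Or.inr (Or.inl (Finset.Subset.antisymm ?_ (by simpa using hB')))
        intro c hc
        have h1 := hsub hc
        rw [Finset.mem_insert, Finset.mem_singleton] at h1
        rcases h1 with rfl | rfl
        · exact absurd hc hA
        · simp
      · have h1 := hsub ha0p
        rw [Finset.mem_insert, Finset.mem_singleton] at h1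
        rcases h1 with rfl | rfl
        · exact absurd ha0p hA
        · exact absurd ha0p hB'
    rcases hcase with h1 | h1 | h1
    · exact hs1 p hpS a h1
    · exact hs1 p hpS b h1
    · rcases hab with h2 | h2
      · rw [h2, Finset.pair_eq_singleton] at h1
        exact hs1 p hpS b h1
      · exact h2 ⟨p, hpS, h1⟩

end Pool.Agent.Helper22.CS
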